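import Pool.Agent.H633R5.FS.Cor
import Pool.Agent.W857.Few

/-!
The inequality for sets with few divisors.
-/

set_option autoImplicit false

namespace Pool.Agent.W857.FD

open Finset H633R5.FS
open scoped Pointwise

/-- `jA + P` -/
def SP (A P : Finset ℤ) : ℕ → Finset ℤ
  | 0 => P
  | (j + 1) => A + SP A P j

theorem SP_nonempty {A P : Finset ℤ} (hA : A.Nonempty) (hP : P.Nonempty) :
    ∀ j, (SP A P j).Nonempty
  | 0 => hP
  | (j + 1) => hA.add (SP_nonempty hA hP j)

theorem SP_card_le {A P : Finset ℤ} (hA : A.Nonempty) (hP : P.Nonempty) : ∀ j,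
    Real.log (SP A P j).card ≤ j * Real.log A.card + Real.log P.card := by
  intro j
  induction j with
  | zero => simp [SP]
  | succ j ih =>
    have h1 : (SP A P (j + 1)).card ≤ A.card * (SP A P j).card := Finset.card_add_le
    have c1 : (0 : ℝ) < (SP A P (j + 1)).card := by
      exact_mod_cast (SP_nonempty hA hP (j + 1)).card_pos
    have c2 : (0 : ℝ) < (SP A P j).card := by exact_mod_cast (SP_nonempty hA hP j).card_pos
    have c3 : (0 : ℝ) < A.card := by exact_mod_cast hA.card_pos
    have h2 : Real.log (SP A P (j + 1)).card ≤ Real.log (A.card * (SP A P j).card) :=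
      Real.log_le_log c1 (by exact_mod_cast h1)
    rw [Real.log_mul c3.ne' c2.ne'] at h2
    push_cast
    linarith

theorem gen (k K : ℕ) (hK : 1 ≤ K) (ε : ℝ) (hε : 0 < ε) :
    ∃ η C : ℝ, 0 < η ∧ ∀ A : Finset ℤ, A.Nonempty → (∀ a ∈ A, a ≠ 0) →
      ((Dv A).card : ℝ) ≤ (A.card : ℝ) ^ (1 + η) → ∀ P : Finset ℤ, P.Nonempty →
      (K * k - ε) * Real.log A.card + (K - ε) * Real.log P.card - C ≤
        K * Real.log (SP A P k).card + k * Real.log (PS fun _ : Fin K => A).card := by
  have hKpos : (0 : ℝ) < K := by exact_mod_cast hK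
  have hk0 : (0 : ℝ) ≤ k := by positivity
  set δ : ℝ := min (1 / 2) (ε / (3 * K * (k + 1) ^ 2)) with hδ
  have hδ0 : 0 < δ := by positivity
  have hδ1 : δ ≤ 1 / 2 := min_le_left _ _
  have hδ2 : 3 * K * (k + 1) ^ 2 * δ ≤ ε := by
    have h1 : δ ≤ ε / (3 * K * (k + 1) ^ 2) := min_le_right _ _
    rw [le_div_iff₀ (by positivity)] at h1
    linarith
  obtain ⟨P₀, hx, hy, _, ht, hb, hmain⟩ := main' K hK (1 - δ) δ (by linarith) (by linarith) hδ0
  obtain ⟨η, C₀, hη, hC₀, hfew⟩ := few P₀ hx hy ht hb δ hδ0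
  refine ⟨η, K * k * (C₀ + Real.log 2), hη, ?_⟩
  intro A hA h0 hD P hP
  have cA : (0 : ℝ) < A.card := by exact_mod_cast hA.card_pos
  have cP : (0 : ℝ) < P.card := by exact_mod_cast hP.card_pos
  set Lg := Real.log A.card with hLg
  set Lp := Real.log P.card with hLp
  have hLg0 : 0 ≤ Lg := Real.log_natCast_nonneg _
  have hLp0 : 0 ≤ Lp := Real.log_natCast_nonneg _
  have hlog2 : 0 < Real.log 2 := Real.log_pos (by norm_num)
  have hlog2' : Real.log 2 ≤ 1 := by linarith [Real.log_two_lt_d9]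
  -- the penalty
  have hU : U P₀ (1 - δ) A ≤ δ * Lg + C₀ := by
    unfold U
    have h1 : nbs P₀ A / A.card ≤ δ * Lg + C₀ := by
      rw [div_le_iff₀ cA, mul_comm]
      exact hfew A hA h0 hD
    have h2 : 0 ≤ nbs P₀ A / A.card := div_nonneg (nbs_nonneg _ _) cA.le
    have h3 : (1 - δ) * Real.log 2 ≤ 1 * 1 :=
      mul_le_mul (by linarith) hlog2' hlog2.le (by norm_num)
    calc (1 - δ) * Real.log 2 * (nbs P₀ A / A.card) ≤ 1 * 1 * (nbs P₀ A / A.card) :=
          mul_le_mul_of_nonneg_right h3 h2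
      _ ≤ δ * Lg + C₀ := by linarith
  -- one step
  have hstep : ∀ j, (1 - δ) * Lg - (Real.log (SP A P (j + 1)).card - Real.log (SP A P j).card) -
      δ * Real.log (SP A P j).card - (δ * Lg + C₀) - Real.log 2 ≤
        Real.log (PS fun _ : Fin K => A).card / K := by
    intro j
    have hR := SP_nonempty hA hP j
    have cR : (0 : ℝ) < (SP A P j).card := by exact_mod_cast hR.card_pos
    have cR' : (0 : ℝ) < (SP A P (j + 1)).card := by
      exact_mod_cast (SP_nonempty hA hP (j + 1)).card_pos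
    have h1 := hmain _ (fun _ => A) (fun _ => SP A P j) rfl (fun _ => hA) (fun _ => hR)
      (fun _ => h0)
    rw [Finset.sum_const, Finset.card_univ, Fintype.card_fin, nsmul_eq_mul] at h1
    have cPS : (0 : ℝ) < (PS fun _ : Fin K => A).card := by
      exact_mod_cast (PS_nonempty fun _ : Fin K => hA).card_pos
    have h2 := (Real.le_log_iff_exp_le cPS).2 h1
    have h3 := g_le A (SP A P j) hA hR
    have h4 : Real.log (((A + SP A P j).card : ℝ) / (SP A P j).card) =
        Real.log (SP A P (j + 1)).card - Real.log (SP A P j).card := by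
      rw [← Real.log_div cR'.ne' cR.ne']
      rfl
    rw [h4] at h3
    rw [le_div_iff₀ hKpos]
    unfold G F at h2
    have h5 : (1 - δ) * Lg - (Real.log (SP A P (j + 1)).card - Real.log (SP A P j).card) -
      δ * Real.log (SP A P j).card - (δ * Lg + C₀) - Real.log 2 ≤
      (1 - δ) * Lg - 1 * g A (SP A P j) - δ * Real.log (SP A P j).card - U P₀ (1 - δ) A -
        Real.log 2 := by linarith
    have h6 := mul_le_mul_of_nonneg_left h5 hKpos.le
    linarith
  -- the sum over the steps
  have hsum : ∀ j : ℕ, j ≤ k → j * ((1 - 2 * δ) * Lg - C₀ - Real.log 2 -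
      δ * (k * Lg + Lp)) - (Real.log (SP A P j).card - Lp) ≤
        j * (Real.log (PS fun _ : Fin K => A).card / K) := by
    intro j
    induction j with
    | zero => intro _; simp [SP, hLp]
    | succ j ih =>
      intro hj
      have h1 := ih (by omega)
      have h2 := hstep j
      have h3 := SP_card_le hA hP j
      have h4 : (j : ℝ) ≤ k := by exact_mod_cast (by omega : j ≤ k)
      have h5 : δ * Real.log (SP A P j).card ≤ δ * (k * Lg + Lp) := by
        apply mul_le_mul_of_nonneg_left _ hδ0.le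
        have := mul_le_mul_of_nonneg_right h4 hLg0
        linarith
      push_cast
      linarith
  have h1 := hsum k le_rfl
  have h2 := mul_le_mul_of_nonneg_left h1 hKpos.le
  have h3 : (K : ℝ) * (k * (Real.log (PS fun _ : Fin K => A).card / K)) =
      k * Real.log (PS fun _ : Fin K => A).card := by
    field_simp
  rw [h3] at h2
  have h4 : 0 ≤ (ε - 3 * K * (k + 1) ^ 2 * δ) * Lg := mul_nonneg (by linarith) hLg0
  have h5 : 0 ≤ (ε - 3 * K * (k + 1) ^ 2 * δ) * Lp := mul_nonneg (by linarith) hLp0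
  have h6 : (K * k * 2 * δ + K * k ^ 2 * δ) * Lg ≤ 3 * K * (k + 1) ^ 2 * δ * Lg := by
    apply mul_le_mul_of_nonneg_right _ hLg0
    have : 0 ≤ K * δ := by positivity
    nlinarith
  have h7 : K * k * δ * Lp ≤ 3 * K * (k + 1) ^ 2 * δ * Lp := by
    apply mul_le_mul_of_nonneg_right _ hLp0
    have : 0 ≤ K * δ := by positivity
    nlinarith
  nlinarith

end Pool.Agent.W857.FD
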