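import Pool.Agent.W857.Asm

/-!
The two final forms.
-/

set_option autoImplicit false

namespace Pool.Agent.W857.FD

open Finset H633R5.FS
open scoped Pointwise

theorem SP_subset (A P : Finset ℤ) : ∀ k, SP A P k ⊆ SS k A + P := by
  intro k
  induction k with
  | zero =>
    intro z hz
    have hz' : z ∈ P := hz
    refine Finset.mem_add.2 ⟨0, ?_, z, hz', zero_add z⟩
    refine Finset.mem_image.2 ⟨fun i => i.elim0, ?_, by simp⟩
    rw [Fintype.mem_piFinset]
    intro i
    exact i.elim0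
  | succ k ih =>
    intro z hz
    have hz' : z ∈ A + SP A P k := hz
    obtain ⟨a, ha, s, hs, rfl⟩ := Finset.mem_add.1 hz'
    obtain ⟨t, ht, p, hp, rfl⟩ := Finset.mem_add.1 (ih hs)
    obtain ⟨f, hf, rfl⟩ := Finset.mem_image.1 ht
    rw [Fintype.mem_piFinset] at hf
    refine Finset.mem_add.2 ⟨a + ∑ i, f i, ?_, p, hp, by ring⟩
    refine Finset.mem_image.2 ⟨Fin.cons a f, ?_, ?_⟩
    · rw [Fintype.mem_piFinset]
      intro i
      refine Fin.cases ?_ ?_ i
      · simpa using ha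
      · intro j
        simpa using hf j
    · rw [Fin.sum_univ_succ]
      simp

theorem SS_one_add (A : Finset ℤ) (k : ℕ) : SS k A + A ⊆ SS (k + 1) A := by
  intro z hz
  obtain ⟨t, ht, a, ha, rfl⟩ := Finset.mem_add.1 hz
  obtain ⟨f, hf, rfl⟩ := Finset.mem_image.1 ht
  rw [Fintype.mem_piFinset] at hf
  refine Finset.mem_image.2 ⟨Fin.cons a f, ?_, ?_⟩
  · rw [Fintype.mem_piFinset]
    intro i
    refine Fin.cases ?_ ?_ i
    · simpa using ha
    · intro j
      simpa using hf j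
  · rw [Fin.sum_univ_succ]
    simp [add_comm]

/-- first form -/
theorem form1 (k K : ℕ) (hK : 1 ≤ K) (ε : ℝ) (hε : 0 < ε) :
    ∃ η c : ℝ, 0 < η ∧ 0 < c ∧ ∀ A : Finset ℤ, A.Nonempty → (∀ a ∈ A, a ≠ 0) →
      ((Dv A).card : ℝ) ≤ (A.card : ℝ) ^ (1 + η) → ∀ P : Finset ℤ, P.Nonempty →
      c * (A.card : ℝ) ^ ((k : ℝ) * K - ε) * (P.card : ℝ) ^ ((K : ℝ) - ε) ≤
        ((SS k A + P).card : ℝ) ^ K * ((PS fun _ : Fin K => A).card : ℝ) ^ k := by
  obtain ⟨η, C, hη, h⟩ := gen k K hK ε hε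
  refine ⟨η, Real.exp (-C), hη, Real.exp_pos _, ?_⟩
  intro A hA h0 hD P hP
  have h1 := h A hA h0 hD P hP
  have cA : (0 : ℝ) < A.card := by exact_mod_cast hA.card_pos
  have cP : (0 : ℝ) < P.card := by exact_mod_cast hP.card_pos
  have cPS : (0 : ℝ) < (PS fun _ : Fin K => A).card := by
    exact_mod_cast (PS_nonempty fun _ : Fin K => hA).card_pos
  have cSP : (0 : ℝ) < (SP A P k).card := by exact_mod_cast (SP_nonempty hA hP k).card_pos
  have h2 : Real.log (SP A P k).card ≤ Real.log (SS k A + P).card :=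
    Real.log_le_log cSP (by exact_mod_cast Finset.card_le_card (SP_subset A P k))
  have cSS : (0 : ℝ) < (SS k A + P).card :=
    lt_of_lt_of_le cSP (by exact_mod_cast Finset.card_le_card (SP_subset A P k))
  have hK0 : (0 : ℝ) ≤ K := by positivity
  have h3 := mul_le_mul_of_nonneg_left h2 hK0
  have e1 : ((SS k A + P).card : ℝ) ^ K = Real.exp (K * Real.log (SS k A + P).card) := by
    rw [mul_comm, ← Real.rpow_def_of_pos cSS, Real.rpow_natCast]
  have e2 : ((PS fun _ : Fin K => A).card : ℝ) ^ k =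
      Real.exp (k * Real.log (PS fun _ : Fin K => A).card) := by
    rw [mul_comm, ← Real.rpow_def_of_pos cPS, Real.rpow_natCast]
  rw [e1, e2, Real.rpow_def_of_pos cA, Real.rpow_def_of_pos cP, ← Real.exp_add, ← Real.exp_add,
    ← Real.exp_add]
  apply Real.exp_le_exp.2
  linarith

theorem num7 {x L C ε d : ℝ} (hd : d ≠ 0) :
    (x / d - ε) * L - C / d = ((x - ε * d) * L - C) / d := by
  field_simp

theorem form2 (k : ℕ) (hk : 1 ≤ k) (ε : ℝ) (hε : 0 < ε) :
    ∃ η c : ℝ, 0 < η ∧ 0 < c ∧ ∀ A : Finset ℤ, A.Nonempty → (∀ a ∈ A, a ≠ 0) →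
      ((Dv A).card : ℝ) ≤ (A.card : ℝ) ^ (1 + η) →
      c * (A.card : ℝ) ^ ((k : ℝ) ^ 2 / (2 * k - 1) - ε) ≤
        max ((SS k A).card : ℝ) ((PS fun _ : Fin k => A).card : ℝ) := by
  have hk1 : (1 : ℝ) ≤ k := by exact_mod_cast hk
  have hd : (0 : ℝ) < 2 * k - 1 := by linarith
  obtain ⟨η, C, hη, h⟩ := gen (k - 1) k hk (ε * (2 * k - 1) / 2) (by positivity)
  refine ⟨η, Real.exp (-(C / (2 * k - 1))), hη, Real.exp_pos _, ?_⟩
  intro A hA h0 hD
  have h1 := h A hA h0 hD A hA
  have cA : (0 : ℝ) < A.card := by exact_mod_cast hA.card_pos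
  have cPS : (0 : ℝ) < (PS fun _ : Fin k => A).card := by
    exact_mod_cast (PS_nonempty fun _ : Fin k => hA).card_pos
  have cSP : (0 : ℝ) < (SP A A (k - 1)).card := by
    exact_mod_cast (SP_nonempty hA hA (k - 1)).card_pos
  have hsub : SP A A (k - 1) ⊆ SS k A := by
    have h2 := (SP_subset A A (k - 1)).trans (SS_one_add A (k - 1))
    rwa [Nat.sub_add_cancel hk] at h2
  have hle : ((SP A A (k - 1)).card : ℝ) ≤ (SS k A).card := by
    exact_mod_cast Finset.card_le_card hsub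
  set M : ℝ := max ((SS k A).card : ℝ) ((PS fun _ : Fin k => A).card : ℝ) with hM
  have hM0 : 0 < M := lt_of_lt_of_le cPS (le_max_right _ _)
  have l1 : Real.log (SP A A (k - 1)).card ≤ Real.log M :=
    Real.log_le_log cSP (hle.trans (le_max_left _ _))
  have l2 : Real.log (PS fun _ : Fin k => A).card ≤ Real.log M :=
    Real.log_le_log cPS (le_max_right _ _)
  have hk' : ((k - 1 : ℕ) : ℝ) = k - 1 := by
    rw [Nat.cast_sub hk]; norm_num
  rw [hk'] at h1
  have m1 := mul_le_mul_of_nonneg_left l1 (by linarith : (0 : ℝ) ≤ k)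
  have m2 := mul_le_mul_of_nonneg_left l2 (by linarith : (0 : ℝ) ≤ (k : ℝ) - 1)
  have h2 : ((k : ℝ) ^ 2 - ε * (2 * k - 1)) * Real.log A.card - C ≤ (2 * k - 1) * Real.log M := by
    nlinarith
  have h3 : ((k : ℝ) ^ 2 / (2 * k - 1) - ε) * Real.log A.card - C / (2 * k - 1) ≤
      Real.log M := by
    have e : ((k : ℝ) ^ 2 / (2 * k - 1) - ε) * Real.log A.card - C / (2 * k - 1) =
        (((k : ℝ) ^ 2 - ε * (2 * k - 1)) * Real.log A.card - C) / (2 * k - 1) := by
      exact num7 hd.ne'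
    rw [e, div_le_iff₀ hd]
    linarith
  rw [Real.rpow_def_of_pos cA, ← Real.exp_add, ← Real.le_log_iff_exp_le hM0]
  linarith

/-- the number of divisors of a power -/
theorem tau_pow (n : ℕ) (hn : n ≠ 0) (r : ℕ) :
    (n ^ (2 ^ r - 1)).divisors.card ≤ n.divisors.card ^ r := by
  rcases Nat.eq_zero_or_pos r with rfl | hr
  · simp
  have hexp : 2 ^ r - 1 ≠ 0 := by
    have : 2 ≤ 2 ^ r := by
      calc 2 = 2 ^ 1 := by norm_num
        _ ≤ 2 ^ r := Nat.pow_le_pow_right (by norm_num) hr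
    omega
  rw [Nat.card_divisors (pow_ne_zero _ hn), Nat.card_divisors hn, Nat.primeFactors_pow n hexp,
    ← Finset.prod_pow]
  apply Finset.prod_le_prod'
  intro p _
  rw [Nat.factorization_pow]
  show (2 ^ r - 1) * n.factorization p + 1 ≤ (n.factorization p + 1) ^ r
  set e := n.factorization p
  have key : ∀ r : ℕ, (2 ^ r - 1) * e + 1 ≤ (e + 1) ^ r := by
    intro r
    rcases Nat.eq_zero_or_pos e with he | he
    · rw [he]; simp
    · induction r with
      | zero => simp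
      | succ r ih =>
        have h1 : 1 ≤ 2 ^ r := Nat.one_le_two_pow
        have h2 : 2 ^ (r + 1) - 1 = 2 * (2 ^ r - 1) + 1 := by
          rw [pow_succ]; omega
        obtain ⟨u, hu⟩ : ∃ u, 2 ^ r - 1 = u := ⟨_, rfl⟩
        obtain ⟨v, hv⟩ : ∃ v, (e + 1) ^ r = v := ⟨_, rfl⟩
        rw [h2, pow_succ, hu, hv]
        rw [hu, hv] at ih
        have h3 : 1 ≤ v := by rw [← hv]; exact Nat.one_le_pow _ _ (by omega)
        nlinarith
  exact key r

theorem card_PS_divisors (n : ℕ) (hn : n ≠ 0) (A : Finset ℤ) (hA : ∀ a ∈ A, a.natAbs ∣ n)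
    (K : ℕ) : (PS fun _ : Fin K => A).card ≤ 2 * (n ^ K).divisors.card := by
  have h1 : (PS fun _ : Fin K => A) ⊆ (n ^ K).divisors.image (fun d : ℕ => (d : ℤ)) ∪
      (n ^ K).divisors.image (fun d : ℕ => -(d : ℤ)) := by
    intro z hz
    obtain ⟨f, hf, rfl⟩ := Finset.mem_image.1 hz
    rw [Fintype.mem_piFinset] at hf
    have h2 : (∏ i, f i).natAbs ∈ (n ^ K).divisors := by
      rw [Nat.mem_divisors]
      refine ⟨?_, pow_ne_zero _ hn⟩
      have h3 : (∏ i, f i).natAbs = ∏ i, (f i).natAbs := by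
        exact map_prod Int.natAbsHom f Finset.univ
      rw [h3]
      have h4 : ∏ i, (f i).natAbs ∣ ∏ _i : Fin K, n :=
        Finset.prod_dvd_prod_of_dvd _ _ fun i _ => hA _ (hf i)
      simpa using h4
    rw [Finset.mem_union, Finset.mem_image, Finset.mem_image]
    rcases le_total 0 (∏ i, f i) with h | h
    · exact Or.inl ⟨_, h2, Int.natAbs_of_nonneg h⟩
    · exact Or.inr ⟨_, h2, by rw [Int.ofNat_natAbs_of_nonpos h]; ring⟩
  refine (Finset.card_le_card h1).trans ((Finset.card_union_le _ _).trans ?_)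
  have h2 := Finset.card_image_le (s := (n ^ K).divisors) (f := fun d : ℕ => (d : ℤ))
  have h3 := Finset.card_image_le (s := (n ^ K).divisors) (f := fun d : ℕ => -(d : ℤ))
  omega

theorem form3 (k : ℕ) (ε : ℝ) (hε : 0 < ε) :
    ∃ η c : ℝ, 0 < η ∧ 0 < c ∧ ∀ n : ℕ, 1 ≤ n → ∀ A : Finset ℤ, A.Nonempty →
      (∀ a ∈ A, a.natAbs ∣ n) → (n.divisors.card : ℝ) ^ (1 - η) ≤ A.card →
      ∀ P : Finset ℤ, P.Nonempty →
      c * (A.card : ℝ) ^ ((k : ℝ) - ε) * (P.card : ℝ) ^ (1 - ε) ≤ (SS k A + P).card := by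
  have hk0 : (0 : ℝ) ≤ k := by positivity
  set t : ℕ := ⌈8 * k / ε⌉₊ + 1 with ht
  have ht1 : 8 * k / ε ≤ t := by
    have h1 : 8 * k / ε ≤ (⌈8 * k / ε⌉₊ : ℝ) := Nat.le_ceil _
    rw [ht]; push_cast; linarith
  have htpos : 1 ≤ t := by omega
  set r : ℕ := 2 * t with hr
  set K : ℕ := 2 ^ r - 1 with hKdef
  have hK2 : t * (t + 2) ≤ K := by
    have h1 : t + 1 ≤ 2 ^ t := Nat.lt_two_pow_self
    have h2 : 2 ^ r = 2 ^ t * 2 ^ t := by rw [hr, two_mul, pow_add]
    have h3 : (t + 1) * (t + 1) ≤ 2 ^ t * 2 ^ t := Nat.mul_le_mul h1 h1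
    have h4 : (t + 1) * (t + 1) = t * (t + 2) + 1 := by ring
    omega
  have hK : 1 ≤ K := by
    have : 1 ≤ t * (t + 2) := Nat.one_le_iff_ne_zero.2 (Nat.mul_ne_zero (by omega) (by omega))
    omega
  have hKpos : (0 : ℝ) < K := by exact_mod_cast hK
  have hKr : 4 * (r * k) ≤ ε * K := by
    have h1 : (t : ℝ) * (t + 2) ≤ K := by exact_mod_cast hK2
    have h2 : 8 * k ≤ ε * t := by
      rw [div_le_iff₀ hε] at ht1
      linarith
    have h3 : (r : ℝ) = 2 * t := by rw [hr]; push_cast; ring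
    rw [h3]
    have ht0 : (0 : ℝ) ≤ t := by positivity
    have h4 := mul_le_mul_of_nonneg_left h1 hε.le
    have h5 := mul_le_mul_of_nonneg_right h2 ht0
    nlinarith
  obtain ⟨η', C, hη', h⟩ := gen k K hK (ε / 2) (by positivity)
  set η : ℝ := min (1 / 2) (η' / (1 + η')) with hη
  have hη0 : 0 < η := by positivity
  have hη1 : η ≤ 1 / 2 := min_le_left _ _
  have hη2 : η ≤ η' / (1 + η') := min_le_right _ _
  refine ⟨η, Real.exp (-((|C| + k * Real.log 2) / K)), hη0, Real.exp_pos _, ?_⟩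
  intro n hn A hA hAn hdense P hP
  have hn0 : n ≠ 0 := by omega
  have h0 : ∀ a ∈ A, a ≠ 0 := by
    rintro a ha rfl
    have := hAn 0 ha
    simp only [Int.natAbs_zero, zero_dvd_iff] at this
    exact hn0 this
  have cA : (0 : ℝ) < A.card := by exact_mod_cast hA.card_pos
  have cP : (0 : ℝ) < P.card := by exact_mod_cast hP.card_pos
  have cT : (1 : ℝ) ≤ n.divisors.card := by
    exact_mod_cast (Nat.nonempty_divisors.2 hn0).card_pos
  set T : ℝ := (n.divisors.card : ℝ) with hT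
  set Lg := Real.log A.card with hLg
  have hLg0 : 0 ≤ Lg := Real.log_natCast_nonneg _
  have hLp0 : 0 ≤ Real.log P.card := Real.log_natCast_nonneg _
  have hlogT : 0 ≤ Real.log T := Real.log_nonneg cT
  have hTA : (1 - η) * Real.log T ≤ Lg := by
    have h1 := Real.log_le_log (Real.rpow_pos_of_pos (by linarith) _) hdense
    rwa [Real.log_rpow (by linarith)] at h1
  have hT2 : Real.log T ≤ 2 * Lg := by
    have h1 : (1 / 2) * Real.log T ≤ (1 - η) * Real.log T :=
      mul_le_mul_of_nonneg_right (by linarith) hlogT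
    linarith
  have hTη : Real.log T ≤ (1 + η') * Lg := by
    have h1 : 1 / (1 + η') ≤ 1 - η := by
      have h2 : 1 - η' / (1 + η') = 1 / (1 + η') := by field_simp; ring
      linarith
    have h2 : 1 / (1 + η') * Real.log T ≤ Lg :=
      (mul_le_mul_of_nonneg_right h1 hlogT).trans hTA
    have h3 := mul_le_mul_of_nonneg_left h2 (by linarith : 0 ≤ 1 + η')
    have h4 : (1 + η') * (1 / (1 + η') * Real.log T) = Real.log T := by field_simp
    linarith
  have hD : ((Dv A).card : ℝ) ≤ (A.card : ℝ) ^ (1 + η') := by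
    have h1 : Dv A ⊆ n.divisors := by
      intro d hd
      obtain ⟨a, ha, hda⟩ := Finset.mem_biUnion.1 hd
      exact Nat.mem_divisors.2 ⟨(Nat.dvd_of_mem_divisors hda).trans (hAn a ha), hn0⟩
    have h2 : ((Dv A).card : ℝ) ≤ T := by
      rw [hT]; exact_mod_cast Finset.card_le_card h1
    refine h2.trans ?_
    rw [Real.rpow_def_of_pos cA]
    calc T = Real.exp (Real.log T) := (Real.exp_log (by linarith)).symm
      _ ≤ _ := Real.exp_le_exp.2 (by linarith)
  have h1 := h A hA h0 hD P hP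
  have cPS : (0 : ℝ) < (PS fun _ : Fin K => A).card := by
    exact_mod_cast (PS_nonempty fun _ : Fin K => hA).card_pos
  have cSP : (0 : ℝ) < (SP A P k).card := by exact_mod_cast (SP_nonempty hA hP k).card_pos
  have h2 : Real.log (SP A P k).card ≤ Real.log (SS k A + P).card :=
    Real.log_le_log cSP (by exact_mod_cast Finset.card_le_card (SP_subset A P k))
  have cSS : (0 : ℝ) < (SS k A + P).card :=
    lt_of_lt_of_le cSP (by exact_mod_cast Finset.card_le_card (SP_subset A P k))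
  -- the product set
  have hPS : Real.log (PS fun _ : Fin K => A).card ≤ Real.log 2 + r * (2 * Lg) := by
    have h3 : ((PS fun _ : Fin K => A).card : ℝ) ≤ 2 * T ^ r := by
      have h4 := (card_PS_divisors n hn0 A hAn K).trans
        (Nat.mul_le_mul_left 2 (tau_pow n hn0 r))
      rw [hT]
      exact_mod_cast h4
    have h4 := Real.log_le_log cPS h3
    rw [Real.log_mul (by norm_num) (by positivity), Real.log_pow] at h4
    have h5 := mul_le_mul_of_nonneg_left hT2 (by positivity : (0 : ℝ) ≤ r)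
    linarith
  have h3 := mul_le_mul_of_nonneg_left h2 hKpos.le
  have h4 := mul_le_mul_of_nonneg_left hPS hk0
  have h5 : (K * k - ε / 2) * Lg + (K - ε / 2) * Real.log P.card - C - k * Real.log 2 -
      2 * (r * k) * Lg ≤ K * Real.log (SS k A + P).card := by nlinarith
  have hK1 : (1 : ℝ) ≤ K := by exact_mod_cast hK
  have h6 : K * (((k : ℝ) - ε) * Lg + (1 - ε) * Real.log P.card -
      (|C| + k * Real.log 2) / K) ≤ K * Real.log (SS k A + P).card := by
    refine le_trans ?_ h5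
    have e1 : K * (((k : ℝ) - ε) * Lg + (1 - ε) * Real.log P.card -
      (|C| + k * Real.log 2) / K) = (K * k - K * ε) * Lg + (K - K * ε) * Real.log P.card -
        (|C| + k * Real.log 2) := by field_simp
    rw [e1]
    have h7 : (K * k - K * ε) * Lg ≤ (K * k - ε / 2) * Lg - 2 * (r * k) * Lg := by
      have h8 : 0 ≤ (K * ε - ε / 2 - 2 * (r * k)) * Lg := by
        apply mul_nonneg _ hLg0
        nlinarith
      linarith
    have h9 : (K - K * ε) * Real.log P.card ≤ (K - ε / 2) * Real.log P.card := by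
      apply mul_le_mul_of_nonneg_right _ hLp0
      nlinarith
    have := le_abs_self C
    linarith
  have h7 := le_of_mul_le_mul_left h6 hKpos
  rw [Real.rpow_def_of_pos cA, Real.rpow_def_of_pos cP, ← Real.exp_add, ← Real.exp_add,
    ← Real.le_log_iff_exp_le cSS]
  linarith

end Pool.Agent.W857.FD
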