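import Pool.Agent.W857.Num2
import Pool.Agent.W857.End

/-!
The stronger inequality for sets with few divisors.
-/

set_option autoImplicit false

namespace Pool.Agent.W857.FD

open Finset H633R5.FS
open scoped Pointwise

theorem gen2 (k K : ℕ) (hK : 1 ≤ K) (ε : ℝ) (hε : 0 < ε) :
    ∃ η C : ℝ, 0 < η ∧ ∀ A : Finset ℤ, A.Nonempty → (∀ a ∈ A, a ≠ 0) →
      ((Dv A).card : ℝ) ≤ (A.card : ℝ) ^ (1 + η) → ∀ P : Finset ℤ, P.Nonempty →
      (k * K - ε) * Real.log A.card + (K - 1 - ε) * Real.log P.card - C ≤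
        (K - 1) * Real.log (SP A P k).card + k * Real.log (PS fun _ : Fin K => A).card := by
  have hK1 : (1 : ℝ) ≤ K := by exact_mod_cast hK
  have hKpos : (0 : ℝ) < K := by linarith
  have hk0 : (0 : ℝ) ≤ k := by positivity
  set δ : ℝ := min (1 / 2) (ε / (3 * K * (k + 1) ^ 2)) with hδ
  have hδ0 : 0 < δ := by positivity
  have hδ1 : δ ≤ 1 / 2 := min_le_left _ _
  have hδ2 : 3 * K * (k + 1) ^ 2 * δ ≤ ε := by
    have h1 : δ ≤ ε / (3 * K * (k + 1) ^ 2) := min_le_right _ _
    rw [le_div_iff₀ (by positivity)] at h1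
    linarith
  obtain ⟨P₀, hx, hy, _, ht, hb, hmain⟩ := main2 K hK ⟨0, hK⟩ (1 - δ) δ (by linarith)
    (by linarith) hδ0
  obtain ⟨η, C₀, hη, hC₀, hfew⟩ := few P₀ hx hy ht hb δ hδ0
  refine ⟨η, K * k * (C₀ + Real.log 2), hη, ?_⟩
  intro A hA h0 hD P hP
  have cA : (0 : ℝ) < A.card := by exact_mod_cast hA.card_pos
  have cP : (0 : ℝ) < P.card := by exact_mod_cast hP.card_pos
  set Lg := Real.log A.card with hLg
  set Lp := Real.log P.card with hLp
  have hLg0 : 0 ≤ Lg := Real.log_natCast_nonneg _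
  have hLp0 : 0 ≤ Lp := Real.log_natCast_nonneg _
  have hlog2 : 0 < Real.log 2 := Real.log_pos (by norm_num)
  have hlog2' : Real.log 2 ≤ 1 := by linarith [Real.log_two_lt_d9]
  -- the penalty
  have hU : U P₀ (1 - δ) A ≤ δ * Lg + C₀ := by
    unfold U
    have h1 : nbs P₀ A / A.card ≤ δ * Lg + C₀ := by
      rw [div_le_iff₀ cA, mul_comm]
      exact hfew A hA h0 hD
    have h2 : 0 ≤ nbs P₀ A / A.card := div_nonneg (nbs_nonneg _ _) cA.le
    have h3 : (1 - δ) * Real.log 2 ≤ 1 * 1 :=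
      mul_le_mul (by linarith) hlog2' hlog2.le (by norm_num)
    calc (1 - δ) * Real.log 2 * (nbs P₀ A / A.card) ≤ 1 * 1 * (nbs P₀ A / A.card) :=
          mul_le_mul_of_nonneg_right h3 h2
      _ ≤ δ * Lg + C₀ := by linarith
  set Lq := Real.log (PS fun _ : Fin K => A).card with hLq
  -- one step
  have hstep : ∀ j, (K - 1) * ((1 - δ) * Lg -
      (Real.log (SP A P (j + 1)).card - Real.log (SP A P j).card) -
      δ * Real.log (SP A P j).card - (δ * Lg + C₀)) + (1 - δ) * Lg - K * Real.log 2 ≤ Lq := by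
    intro j
    have hR := SP_nonempty hA hP j
    have cR : (0 : ℝ) < (SP A P j).card := by exact_mod_cast hR.card_pos
    have cR' : (0 : ℝ) < (SP A P (j + 1)).card := by
      exact_mod_cast (SP_nonempty hA hP (j + 1)).card_pos
    have h1 := hmain _ (fun _ => A) (fun _ => SP A P j) rfl (fun _ => hA) (fun _ => hR)
      (fun _ => h0)
    have hsum : ∑ i : Fin K, Gf P₀ (1 - δ) δ ⟨0, hK⟩ i A (SP A P j) =
        (1 - δ) * Lg + (K - 1) * G P₀ (1 - δ) δ A (SP A P j) := by
      have hg0 : Gf P₀ (1 - δ) δ ⟨0, hK⟩ ⟨0, hK⟩ A (SP A P j) = (1 - δ) * Lg := by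
        unfold Gf
        rw [if_pos rfl]
      have hgi : ∀ i ∈ Finset.univ.erase (⟨0, hK⟩ : Fin K),
          Gf P₀ (1 - δ) δ ⟨0, hK⟩ i A (SP A P j) = G P₀ (1 - δ) δ A (SP A P j) := by
        intro i hi
        unfold Gf
        rw [if_neg (Finset.ne_of_mem_erase hi)]
      rw [← Finset.add_sum_erase Finset.univ _ (Finset.mem_univ (⟨0, hK⟩ : Fin K)), hg0,
        Finset.sum_congr rfl hgi, Finset.sum_const,
        Finset.card_erase_of_mem (Finset.mem_univ _), Finset.card_univ, Fintype.card_fin,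
        nsmul_eq_mul, Nat.cast_sub hK]
      norm_num
    rw [hsum] at h1
    have cPS : (0 : ℝ) < (PS fun _ : Fin K => A).card := by
      exact_mod_cast (PS_nonempty fun _ : Fin K => hA).card_pos
    have h2 := (Real.le_log_iff_exp_le cPS).2 h1
    have h3 := g_le A (SP A P j) hA hR
    have h4 : Real.log (((A + SP A P j).card : ℝ) / (SP A P j).card) =
        Real.log (SP A P (j + 1)).card - Real.log (SP A P j).card := by
      rw [← Real.log_div cR'.ne' cR.ne']
      rfl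
    rw [h4] at h3
    unfold G F at h2
    have h5 : (1 - δ) * Lg - (Real.log (SP A P (j + 1)).card - Real.log (SP A P j).card) -
      δ * Real.log (SP A P j).card - (δ * Lg + C₀) ≤
      (1 - δ) * Lg - 1 * g A (SP A P j) - δ * Real.log (SP A P j).card - U P₀ (1 - δ) A := by
      linarith
    have h6 := mul_le_mul_of_nonneg_left h5 (by linarith : (0 : ℝ) ≤ K - 1)
    linarith
  -- the sum over the steps
  have hsum : ∀ j : ℕ, j ≤ k → j * ((K - 1) * ((1 - 2 * δ) * Lg - C₀ -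
      δ * (k * Lg + Lp)) + (1 - δ) * Lg - K * Real.log 2) -
      (K - 1) * (Real.log (SP A P j).card - Lp) ≤ j * Lq := by
    intro j
    induction j with
    | zero => intro _; simp [SP, hLp]
    | succ j ih =>
      intro hj
      have h1 := ih (by omega)
      have h2 := hstep j
      have h3 := SP_card_le hA hP j
      have h4 : (j : ℝ) ≤ k := by exact_mod_cast (by omega : j ≤ k)
      have h5 : δ * Real.log (SP A P j).card ≤ δ * (k * Lg + Lp) := by
        apply mul_le_mul_of_nonneg_left _ hδ0.le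
        have := mul_le_mul_of_nonneg_right h4 hLg0
        linarith
      have h6 := mul_le_mul_of_nonneg_left h5 (by linarith : (0 : ℝ) ≤ K - 1)
      push_cast
      linarith
  have h1 := hsum k le_rfl
  have h4 : 0 ≤ (ε - 3 * K * (k + 1) ^ 2 * δ) * Lg := mul_nonneg (by linarith) hLg0
  have h5 : 0 ≤ (ε - 3 * K * (k + 1) ^ 2 * δ) * Lp := mul_nonneg (by linarith) hLp0
  have hKK : (K : ℝ) - 1 ≤ K := by linarith
  have hKK0 : (0 : ℝ) ≤ K - 1 := by linarith
  have h6 : (k * ((K - 1) * 2 + (K - 1) * k + 1)) * δ * Lg ≤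
      3 * K * (k + 1) ^ 2 * δ * Lg := by
    apply mul_le_mul_of_nonneg_right _ hLg0
    apply mul_le_mul_of_nonneg_right _ hδ0.le
    have a1 : ((K : ℝ) - 1) * 2 + (K - 1) * k + 1 ≤ K * 2 + K * k + K := by
      have := mul_le_mul_of_nonneg_right hKK hk0
      linarith
    have a2 := mul_le_mul_of_nonneg_left a1 hk0
    have a3 : (0 : ℝ) ≤ K * k := by positivity
    have a4 : (0 : ℝ) ≤ K * k * k := by positivity
    nlinarith
  have h7 : (k * (K - 1)) * δ * Lp ≤ 3 * K * (k + 1) ^ 2 * δ * Lp := by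
    apply mul_le_mul_of_nonneg_right _ hLp0
    apply mul_le_mul_of_nonneg_right _ hδ0.le
    have a3 : (0 : ℝ) ≤ K * k := by positivity
    have a4 : (0 : ℝ) ≤ K * k * k := by positivity
    nlinarith
  have h8 : k * (K - 1) * C₀ ≤ K * k * C₀ := by
    have : 0 ≤ k * C₀ := by positivity
    nlinarith
  have e1 : k * ((K - 1) * ((1 - 2 * δ) * Lg - C₀ -
      δ * (k * Lg + Lp)) + (1 - δ) * Lg - K * Real.log 2) -
      (K - 1) * (Real.log (SP A P k).card - Lp) =
      k * K * Lg + (K - 1) * Lp - (k * ((K - 1) * 2 + (K - 1) * k + 1)) * δ * Lg -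
      (k * (K - 1)) * δ * Lp - k * (K - 1) * C₀ - K * k * Real.log 2 -
      (K - 1) * Real.log (SP A P k).card := by ring
  rw [e1] at h1
  linarith

theorem form1' (k K : ℕ) (hK : 1 ≤ K) (ε : ℝ) (hε : 0 < ε) :
    ∃ η c : ℝ, 0 < η ∧ 0 < c ∧ ∀ A : Finset ℤ, A.Nonempty → (∀ a ∈ A, a ≠ 0) →
      ((Dv A).card : ℝ) ≤ (A.card : ℝ) ^ (1 + η) → ∀ P : Finset ℤ, P.Nonempty →
      c * (A.card : ℝ) ^ ((k : ℝ) * K - ε) * (P.card : ℝ) ^ ((K : ℝ) - 1 - ε) ≤
        ((SS k A + P).card : ℝ) ^ (K - 1) * ((PS fun _ : Fin K => A).card : ℝ) ^ k := by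
  obtain ⟨η, C, hη, h⟩ := gen2 k K hK ε hε
  refine ⟨η, Real.exp (-C), hη, Real.exp_pos _, ?_⟩
  intro A hA h0 hD P hP
  have h1 := h A hA h0 hD P hP
  have cA : (0 : ℝ) < A.card := by exact_mod_cast hA.card_pos
  have cP : (0 : ℝ) < P.card := by exact_mod_cast hP.card_pos
  have cPS : (0 : ℝ) < (PS fun _ : Fin K => A).card := by
    exact_mod_cast (PS_nonempty fun _ : Fin K => hA).card_pos
  have cSP : (0 : ℝ) < (SP A P k).card := by exact_mod_cast (SP_nonempty hA hP k).card_pos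
  have h2 : Real.log (SP A P k).card ≤ Real.log (SS k A + P).card :=
    Real.log_le_log cSP (by exact_mod_cast Finset.card_le_card (SP_subset A P k))
  have cSS : (0 : ℝ) < (SS k A + P).card :=
    lt_of_lt_of_le cSP (by exact_mod_cast Finset.card_le_card (SP_subset A P k))
  have hK1 : (1 : ℝ) ≤ K := by exact_mod_cast hK
  have h3 := mul_le_mul_of_nonneg_left h2 (by linarith : (0 : ℝ) ≤ K - 1)
  have e1 : ((SS k A + P).card : ℝ) ^ (K - 1) =
      Real.exp ((K - 1) * Real.log (SS k A + P).card) := by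
    rw [mul_comm, ← Real.rpow_def_of_pos cSS]
    have : ((K : ℝ) - 1) = ((K - 1 : ℕ) : ℝ) := by rw [Nat.cast_sub hK]; norm_num
    rw [this, Real.rpow_natCast]
  have e2 : ((PS fun _ : Fin K => A).card : ℝ) ^ k =
      Real.exp (k * Real.log (PS fun _ : Fin K => A).card) := by
    rw [mul_comm, ← Real.rpow_def_of_pos cPS, Real.rpow_natCast]
  rw [e1, e2, Real.rpow_def_of_pos cA, Real.rpow_def_of_pos cP, ← Real.exp_add, ← Real.exp_add,
    ← Real.exp_add]
  apply Real.exp_le_exp.2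
  linarith

theorem form2' (k : ℕ) (hk : 1 ≤ k) (ε : ℝ) (hε : 0 < ε) :
    ∃ η c : ℝ, 0 < η ∧ 0 < c ∧ ∀ A : Finset ℤ, A.Nonempty → (∀ a ∈ A, a ≠ 0) →
      ((Dv A).card : ℝ) ≤ (A.card : ℝ) ^ (1 + η) →
      c * (A.card : ℝ) ^ ((k : ℝ) + 1 - ε) ≤
        (SS k A).card * ((PS fun _ : Fin k => A).card : ℝ) := by
  rcases Nat.eq_or_lt_of_le hk with rfl | hk2
  · refine ⟨1, 1, one_pos, one_pos, ?_⟩
    intro A hA h0 _
    have cA : (1 : ℝ) ≤ A.card := by exact_mod_cast hA.card_pos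
    have h1 : (A.card : ℝ) ≤ (SS 1 A).card := by
      have : A ⊆ SS 1 A := by
        intro a ha
        refine Finset.mem_image.2 ⟨fun _ => a, ?_, by simp⟩
        rw [Fintype.mem_piFinset]
        exact fun _ => ha
      exact_mod_cast Finset.card_le_card this
    have h2 : (A.card : ℝ) ≤ (PS fun _ : Fin 1 => A).card := by
      have : A ⊆ (PS fun _ : Fin 1 => A) := by
        intro a ha
        refine Finset.mem_image.2 ⟨fun _ => a, ?_, by simp⟩
        rw [Fintype.mem_piFinset]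
        exact fun _ => ha
      exact_mod_cast Finset.card_le_card this
    calc 1 * (A.card : ℝ) ^ (((1 : ℕ) : ℝ) + 1 - ε) ≤ (A.card : ℝ) ^ (2 : ℝ) := by
          rw [one_mul]
          apply Real.rpow_le_rpow_of_exponent_le cA
          push_cast; linarith
      _ = A.card * A.card := by
          rw [show (2 : ℝ) = ((2 : ℕ) : ℝ) by norm_num, Real.rpow_natCast]; ring
      _ ≤ (SS 1 A).card * ((PS fun _ : Fin 1 => A).card : ℝ) :=
          mul_le_mul h1 h2 (by linarith) (by linarith)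
  have hk1 : (2 : ℝ) ≤ k := by exact_mod_cast hk2
  obtain ⟨η, C, hη, h⟩ := gen2 (k - 1) k hk (ε * (k - 1) / 2) (by
    have : (0 : ℝ) < k - 1 := by linarith
    positivity)
  refine ⟨η, Real.exp (-(C / (k - 1))), hη, Real.exp_pos _, ?_⟩
  intro A hA h0 hD
  have h1 := h A hA h0 hD A hA
  have cA : (0 : ℝ) < A.card := by exact_mod_cast hA.card_pos
  have cPS : (0 : ℝ) < (PS fun _ : Fin k => A).card := by
    exact_mod_cast (PS_nonempty fun _ : Fin k => hA).card_pos
  have cSP : (0 : ℝ) < (SP A A (k - 1)).card := by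
    exact_mod_cast (SP_nonempty hA hA (k - 1)).card_pos
  have hsub : SP A A (k - 1) ⊆ SS k A := by
    have h2 := (SP_subset A A (k - 1)).trans (SS_one_add A (k - 1))
    rwa [Nat.sub_add_cancel hk] at h2
  have hle : ((SP A A (k - 1)).card : ℝ) ≤ (SS k A).card := by
    exact_mod_cast Finset.card_le_card hsub
  have cSS : (0 : ℝ) < (SS k A).card := lt_of_lt_of_le cSP hle
  have l1 : Real.log (SP A A (k - 1)).card ≤ Real.log (SS k A).card :=
    Real.log_le_log cSP hle
  have hk' : ((k - 1 : ℕ) : ℝ) = k - 1 := by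
    rw [Nat.cast_sub hk]; norm_num
  rw [hk'] at h1
  have hd : (0 : ℝ) < k - 1 := by linarith
  have m1 := mul_le_mul_of_nonneg_left l1 hd.le
  have h2 : (((k : ℝ) + 1 - ε) * Real.log A.card - C / (k - 1)) * (k - 1) ≤
      (Real.log (SS k A).card + Real.log (PS fun _ : Fin k => A).card) * (k - 1) := by
    have e : (((k : ℝ) + 1 - ε) * Real.log A.card - C / (k - 1)) * (k - 1) =
        ((k : ℝ) + 1 - ε) * Real.log A.card * (k - 1) - C := by
      rw [sub_mul, div_mul_cancel₀ _ hd.ne']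
    rw [e]
    nlinarith
  have h3 := le_of_mul_le_mul_right h2 hd
  rw [Real.rpow_def_of_pos cA, ← Real.exp_add,
    ← Real.le_log_iff_exp_le (by positivity), Real.log_mul cSS.ne' cPS.ne']
  linarith

end Pool.Agent.W857.FD
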