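import Pool.Agent.H633R5.FS.Cell
import Pool.Agent.W857.Loc

/-!
The choice of a residue class which keeps the full entropy of the classes.
-/

set_option autoImplicit false

namespace Pool.Agent.W857.FD

open Finset H633R5.FS
open scoped Pointwise

section

variable {p : ℕ} [Fact p.Prime]

theorem exists_class_ent (C R : Finset ℤ) (hC : C.Nonempty)
    (hR : R.Nonempty) (ψ : ℤ → ZMod p) (h : ∀ c ∈ C, ∀ r ∈ R, ψ (c + r) = ψ r) (e : ℝ) :
    ∃ κ ∈ R.image ψ, g C (R.filter fun r => ψ r = κ) +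
      e * Real.log (R.filter fun r => ψ r = κ).card ≤
        g C R + e * Real.log R.card - e * Hw (dw R ψ) := by
  by_contra hcon
  push Not at hcon
  have h1 : (0 : ℝ) < C.card := by exact_mod_cast hC.card_pos
  have h2 : (0 : ℝ) < R.card := by exact_mod_cast hR.card_pos
  have key : ∀ S : Finset ℤ, S.Nonempty → (S.card : ℝ) * g C S =
      S.card * Real.log C.card - Lz C S / C.card := by
    intro S hS
    have h3 : (0 : ℝ) < S.card := by exact_mod_cast hS.card_pos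
    unfold g
    field_simp
  have hne : ∀ κ ∈ R.image ψ, (R.filter fun r => ψ r = κ).Nonempty := by
    intro κ hκ
    obtain ⟨r, hr, rfl⟩ := Finset.mem_image.1 hκ
    exact ⟨r, Finset.mem_filter.2 ⟨hr, rfl⟩⟩
  have hH : ∑ κ ∈ R.image ψ, ((R.filter fun r => ψ r = κ).card : ℝ) *
      Real.log (R.filter fun r => ψ r = κ).card =
      R.card * Real.log R.card - R.card * Hw (dw R ψ) := by
    have e1 : Hw (dw R ψ) = ∑ κ ∈ R.image ψ, dw R ψ κ * Real.log (1 / dw R ψ κ) := by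
      unfold Hw
      symm
      apply Finset.sum_subset (Finset.subset_univ _)
      intro κ _ hκ
      have : dw R ψ κ = 0 := by
        unfold dw
        rw [div_eq_zero_iff]
        left
        have : R.filter (fun r => ψ r = κ) = ∅ :=
          Finset.filter_eq_empty_iff.2 fun {r} hr hrκ => hκ (Finset.mem_image.2 ⟨r, hr, hrκ⟩)
        rw [this]; simp
      rw [this, zero_mul]
    rw [e1, Finset.mul_sum]
    have e2 : (R.card : ℝ) * Real.log R.card =
        ∑ κ ∈ R.image ψ, ((R.filter fun r => ψ r = κ).card : ℝ) * Real.log R.card := by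
      rw [← Finset.sum_mul, ← card_classes]
    rw [e2, ← Finset.sum_sub_distrib]
    refine Finset.sum_congr rfl fun κ hκ => ?_
    have h3 : (0 : ℝ) < (R.filter fun r => ψ r = κ).card := by
      exact_mod_cast (hne κ hκ).card_pos
    rw [← mul_assoc, card_mul_dw R hR]
    have : Real.log (1 / dw R ψ κ) = Real.log R.card -
        Real.log (R.filter fun r => ψ r = κ).card := by
      unfold dw
      rw [one_div, Real.log_inv, Real.log_div h3.ne' h2.ne']
      ring
    rw [this]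
    ring
  have h4 : (R.card : ℝ) * (g C R + e * Real.log R.card - e * Hw (dw R ψ)) <
      ∑ κ ∈ R.image ψ, ((R.filter fun r => ψ r = κ).card : ℝ) *
        (g C (R.filter fun r => ψ r = κ) + e * Real.log (R.filter fun r => ψ r = κ).card) := by
    rw [card_classes R ψ, Finset.sum_mul, ← card_classes R ψ]
    refine Finset.sum_lt_sum_of_nonempty (hR.image _) fun κ hκ => ?_
    have h3 : (0 : ℝ) < (R.filter fun r => ψ r = κ).card := by
      exact_mod_cast (hne κ hκ).card_pos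
    exact mul_lt_mul_of_pos_left (hcon κ hκ) h3
  have h5 : ∑ κ ∈ R.image ψ, ((R.filter fun r => ψ r = κ).card : ℝ) *
        (g C (R.filter fun r => ψ r = κ) + e * Real.log (R.filter fun r => ψ r = κ).card) =
      ∑ κ ∈ R.image ψ, ((R.filter fun r => ψ r = κ).card : ℝ) *
        g C (R.filter fun r => ψ r = κ) +
      e * ∑ κ ∈ R.image ψ, ((R.filter fun r => ψ r = κ).card : ℝ) *
        Real.log (R.filter fun r => ψ r = κ).card := by
    rw [Finset.mul_sum, ← Finset.sum_add_distrib]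
    refine Finset.sum_congr rfl fun κ _ => ?_
    ring
  rw [h5, hH, Finset.sum_congr rfl fun κ hκ => key _ (hne κ hκ), Finset.sum_sub_distrib,
    ← Finset.sum_mul, ← card_classes, ← Finset.sum_div, ← Lz_classes C R ψ ψ h] at h4
  have h6 := key R hR
  nlinarith

end

/-- the class of `c` modulo `p` after division by `p ^ t` -/
def ps (p t : ℕ) (c : ℤ) : ZMod p := ((c / (p : ℤ) ^ t : ℤ) : ZMod p)

theorem stepE (e : ℝ) (p : ℕ) [Fact p.Prime] (C R : Finset ℤ) (hR : R.Nonempty)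
    (h0 : ∀ c ∈ C, c ≠ 0)
    (t : ℕ) (ht : ∀ c ∈ C, t ≤ padicValInt p c) (hhi : (hi p t C).Nonempty)
    (hlo : (lo p t C).Nonempty) (x : ℝ) (hx : x = ((hi p t C).card : ℝ) / C.card) :
    ∃ (R' R'' : Finset ℤ) (w : ZMod p → ℝ) (z₀ : ZMod p),
      R' ⊆ R ∧ R'.Nonempty ∧ R''.Nonempty ∧ g C R' ≤ g C R ∧
      g (hi p t C) R'' + e * Real.log R''.card ≤
        g (hi p t C) R' + e * Real.log R'.card - e * Hw w ∧
      Dist w (dw (lo p t C) (ps p t)) z₀ ∧
      Inf x w (dw (lo p t C) (ps p t)) ≤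
        g C R' - x * g (hi p t C) R' - (1 - x) * g (lo p t C) R' := by
  have hp : p.Prime := Fact.out
  have hppos : 0 < p := hp.pos
  have hC : C.Nonempty := hlo.mono (lo_subset _ _ _)
  have : NeZero (p ^ t) := ⟨(pow_pos hppos t).ne'⟩
  have hdvd : ∀ c ∈ C, ((p : ℤ) ^ t) ∣ c := fun c hc =>
    (padicValInt_dvd_iff t c).2 (Or.inr (ht c hc))
  -- first reduction
  obtain ⟨κ, hκ, hg⟩ := exists_class C R hC hR (fun z => (z : ZMod (p ^ t)))
    (fun z => (z : ZMod (p ^ t))) (fun c hc r _ => by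
      have h1 : ((c : ℤ) : ZMod (p ^ t)) = 0 := by
        rw [ZMod.intCast_zmod_eq_zero_iff_dvd]
        push_cast
        exact hdvd c hc
      push_cast
      rw [h1, zero_add])
  obtain ⟨r₀, hr₀, hr₀κ⟩ := Finset.mem_image.1 hκ
  set R' := R.filter (fun r : ℤ => (r : ZMod (p ^ t)) = κ) with hR'
  have hr₀' : r₀ ∈ R' := Finset.mem_filter.2 ⟨hr₀, hr₀κ⟩
  have hR'ne : R'.Nonempty := ⟨r₀, hr₀'⟩
  have hdvdR : ∀ r ∈ R', ((p : ℤ) ^ t) ∣ r - r₀ := by
    intro r hr
    have h1 := (Finset.mem_filter.1 hr).2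
    have h2 : ((r - r₀ : ℤ) : ZMod (p ^ t)) = 0 := by
      push_cast
      rw [h1, ← hr₀κ, sub_self]
    rw [ZMod.intCast_zmod_eq_zero_iff_dvd] at h2
    push_cast at h2
    exact h2
  set ψR : ℤ → ZMod p := fun r => (((r - r₀) / (p : ℤ) ^ t : ℤ) : ZMod p) with hψR
  have hadd : ∀ c ∈ C, ∀ r ∈ R', ψR (c + r) = ps p t c + ψR r := by
    intro c hc r hr
    show (((c + r - r₀) / (p : ℤ) ^ t : ℤ) : ZMod p) = ((c / (p : ℤ) ^ t : ℤ) : ZMod p) +
      (((r - r₀) / (p : ℤ) ^ t : ℤ) : ZMod p)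
    rw [add_sub_assoc, Int.add_ediv_of_dvd_left (hdvd c hc)]
    push_cast
    rfl
  have hpt : ((p : ℤ) ^ t) ≠ 0 := by
    have : (p : ℤ) ≠ 0 := by exact_mod_cast hppos.ne'
    positivity
  have hzero : ∀ c ∈ C, padicValInt p c ≠ t → ps p t c = 0 := by
    intro c hc hne
    have h1 : ((p : ℤ) ^ (t + 1)) ∣ c :=
      (padicValInt_dvd_iff (t + 1) c).2 (Or.inr (by have := ht c hc; omega))
    obtain ⟨m, hm⟩ := h1
    show ((c / (p : ℤ) ^ t : ℤ) : ZMod p) = 0
    have h2 : c = (p : ℤ) ^ t * (p * m) := by rw [hm]; ring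
    rw [h2, Int.mul_ediv_cancel_left _ hpt]
    push_cast
    simp
  have hnz : ∀ c ∈ lo p t C, ps p t c ≠ 0 := by
    intro c hc hcon
    obtain ⟨hcC, hct⟩ := mem_lo.1 hc
    obtain ⟨m, hm⟩ := hdvd c hcC
    have h1 : ((c / (p : ℤ) ^ t : ℤ) : ZMod p) = 0 := hcon
    rw [hm, Int.mul_ediv_cancel_left _ hpt, ZMod.intCast_zmod_eq_zero_iff_dvd] at h1
    obtain ⟨m', hm'⟩ := h1
    have h2 : ((p : ℤ) ^ (t + 1)) ∣ c := ⟨m', by rw [hm, hm']; ring⟩
    rcases (padicValInt_dvd_iff (t + 1) c).1 h2 with h3 | h3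
    · exact h0 c hcC h3
    · omega
  -- the distributions
  obtain ⟨z₀, hz₀⟩ := Finite.exists_max (dw R' ψR)
  have hsub : hi p t C ⊆ C := hi_subset _ _ _
  obtain ⟨κ', hκ', hg'⟩ := exists_class_ent (hi p t C) R' hhi hR'ne ψR (fun c hc r hr => by
    rw [hadd c (hsub hc) r hr, hzero c (hsub hc) (mem_hi.1 hc).2, zero_add]) e
  obtain ⟨r₁, hr₁, hr₁κ⟩ := Finset.mem_image.1 hκ'
  refine ⟨R', R'.filter (fun r => ψR r = κ'), dw R' ψR, z₀,
    Finset.filter_subset _ _, hR'ne,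
    ⟨r₁, Finset.mem_filter.2 ⟨hr₁, hr₁κ⟩⟩, hg, hg', ?_, ?_⟩
  · refine ⟨dw_nonneg _ _, dw_sum _ hR'ne _, dw_nonneg _ _, dw_sum _ hlo _, ?_, hz₀⟩
    unfold dw
    rw [div_eq_zero_iff]
    left
    have : (lo p t C).filter (fun r => ps p t r = 0) = ∅ :=
      Finset.filter_eq_empty_iff.2 fun {c} hc => hnz c hc
    rw [this]
    simp
  · exact g_split C R' hR'ne (fun c => padicValInt p c ≠ t) hhi hlo (ps p t) ψR ψR hadd hzero
      x hx

end Pool.Agent.W857.FD
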