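import Pool.Agent.W857.Cnt

/-!
The injection from pairs (element, set of small prime factors) to divisors and profiles.
-/

set_option autoImplicit false

namespace Pool.Agent.W857.FD

open Finset H633R5.FS
open scoped Classical

/-- elements with the same valuations at the large primes have the same bad cells -/
theorem path_eq (P : Par) : ∀ C : Finset ℤ, C.Nonempty → (∀ c ∈ C, c ≠ 0) →
    ∀ c ∈ C, ∀ c' ∈ C, ∀ (i Y : ℕ),
    (∀ q : ℕ, q.Prime → Y ≤ q → padicValInt q c = padicValInt q c') →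
    i < (bl P C c).length → Y ≤ mp ((bl P C c).getD i ∅) →
    (bl P C c').take (i + 1) = (bl P C c).take (i + 1) := by
  apply tree_ind
  · intro C _ h0 hn c hc c' _ i Y _ hi
    rw [bl_nil P hn h0 hc] at hi
    simp at hi
  · intro C h0 hn ih1 ih2 c hc c' hc' i Y hq hi hY
    have hC' := nonempty_of_ncp hn
    have hpr := ((mem_ncp h0).1 (mp_mem hn)).1
    have hmem : (bl P C c).getD i ∅ ∈ bl P C c := by
      rw [List.getD_eq_getElem _ _ hi]
      exact List.getElem_mem hi
    have hYp : Y ≤ mp C := hY.trans (mp_mono (mem_bl P C hC' h0 c hc _ hmem).1)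
    have hv := hq (mp C) hpr hYp
    have key : ∀ D : Finset ℤ, c ∈ D → c' ∈ D →
        (∀ c ∈ D, ∀ c' ∈ D, ∀ (i Y : ℕ),
          (∀ q : ℕ, q.Prime → Y ≤ q → padicValInt q c = padicValInt q c') →
          i < (bl P D c).length → Y ≤ mp ((bl P D c).getD i ∅) →
          (bl P D c').take (i + 1) = (bl P D c).take (i + 1)) →
        bl P C c = (if Bd P C then [C] else []) ++ bl P D c →
        bl P C c' = (if Bd P C then [C] else []) ++ bl P D c' →
        (bl P C c').take (i + 1) = (bl P C c).take (i + 1) := by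
      intro D hcD hcD' ih he he'
      rw [he] at hi hY
      rw [he, he']
      by_cases hB : Bd P C
      · simp only [if_pos hB, List.singleton_append] at hi hY ⊢
        rcases i with _ | i
        · simp
        · rw [List.take_succ_cons, List.take_succ_cons]
          congr 1
          rw [List.getD_cons_succ] at hY
          exact ih c hcD c' hcD' i Y hq (by simpa using hi) hY
      · simp only [if_neg hB, List.nil_append] at hi hY ⊢
        exact ih c hcD c' hcD' i Y hq hi hY
    have hc2 : c ∈ hC C ∨ c ∈ lC C := by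
      rw [← Finset.mem_union, hC_union_lC]; exact hc
    rcases hc2 with h1 | h1
    · have h2 : c' ∈ hC C := mem_hC.2 ⟨hc', by rw [← hv]; exact (mem_hC.1 h1).2⟩
      exact key (hC C) h1 h2 ih1 (bl_hi P hn h1) (bl_hi P hn h2)
    · have h2 : c' ∈ lC C := mem_lC.2 ⟨hc', by rw [← hv]; exact (mem_lC.1 h1).2⟩
      exact key (lC C) h1 h2 ih2 (bl_lo P hn h1) (bl_lo P hn h2)

/-- the primes of the bad cells decrease, strictly after a cell where `c` is in the low part -/
theorem path_mono (P : Par) : ∀ C : Finset ℤ, C.Nonempty → (∀ c ∈ C, c ≠ 0) → ∀ c ∈ C,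
    (bl P C c).Pairwise fun B B' => mp B' ≤ mp B ∧ (c ∈ lC B → mp B' < mp B) := by
  apply tree_ind
  · intro C _ h0 hn c hc
    rw [bl_nil P hn h0 hc]
    exact List.Pairwise.nil
  · intro C h0 hn ih1 ih2 c hc
    have hC' := nonempty_of_ncp hn
    have hc2 : c ∈ hC C ∨ c ∈ lC C := by
      rw [← Finset.mem_union, hC_union_lC]; exact hc
    rcases hc2 with h1 | h1
    · rw [bl_hi P hn h1]
      split_ifs
      · rw [List.singleton_append, List.pairwise_cons]
        refine ⟨?_, ih1 c h1⟩
        intro B hB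
        have h2 := (mem_bl P (hC C) (hC_nonempty hn) (fun c hc => h0 c (hC_subset C hc)) c h1 B
          hB).1
        refine ⟨mp_mono (h2.trans (hC_subset C)), fun h3 => ?_⟩
        exact absurd (mem_lC.1 h3).2 (mem_hC.1 h1).2
      · rw [List.nil_append]
        exact ih1 c h1
    · rw [bl_lo P hn h1]
      split_ifs
      · rw [List.singleton_append, List.pairwise_cons]
        refine ⟨?_, ih2 c h1⟩
        intro B hB
        have h2 := (mem_bl P (lC C) (lC_nonempty hC') (fun c hc => h0 c (lC_subset C hc)) c h1 B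
          hB).1
        exact ⟨mp_mono (h2.trans (lC_subset C)),
          fun _ => (mp_mono h2).trans_lt (mp_lC_lt h0 hn)⟩
      · rw [List.nil_append]
        exact ih2 c h1

/-- the heavy classes of a cell -/
noncomputable def HS (P : Par) (B : Finset ℤ) : Finset ℕ :=
  ((lC B).filter fun c => Hv P B c).image fun c => (ps (mp B) (mt B) c).val

theorem card_HS (P : Par) (B : Finset ℤ) (hpr : (mp B).Prime) (hl : (lC B).Nonempty) :
    P.t * (HS P B).card ≤ 1 := by
  have : NeZero (mp B) := ⟨hpr.ne_zero⟩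
  have cl : (0 : ℝ) < (lC B).card := by exact_mod_cast hl.card_pos
  have h1 : ∑ v ∈ HS P B, (((lC B).filter fun c => (ps (mp B) (mt B) c).val = v).card : ℝ) ≤
      (lC B).card := by
    have h2 := Finset.card_eq_sum_card_image (fun c => (ps (mp B) (mt B) c).val) (lC B)
    have h3 : ((lC B).card : ℝ) = ∑ v ∈ (lC B).image (fun c => (ps (mp B) (mt B) c).val),
        (((lC B).filter fun c => (ps (mp B) (mt B) c).val = v).card : ℝ) := by
      exact_mod_cast h2
    rw [h3]
    apply Finset.sum_le_sum_of_subset_of_nonneg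
    · exact Finset.image_subset_image (Finset.filter_subset _ _)
    · intro v _ _
      positivity
  have h2 : ∀ v ∈ HS P B, P.t * (lC B).card ≤
      (((lC B).filter fun c => (ps (mp B) (mt B) c).val = v).card : ℝ) := by
    intro v hv
    obtain ⟨c, hc, rfl⟩ := Finset.mem_image.1 hv
    have h3 := (Finset.mem_filter.1 hc).2
    unfold Hv at h3
    refine h3.trans (le_of_eq ?_)
    congr 2
    apply Finset.filter_congr
    intro d _
    constructor
    · intro h; rw [h]
    · intro h; exact ZMod.val_injective _ h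
  have h3 := (Finset.sum_le_sum h2).trans h1
  rw [Finset.sum_const, nsmul_eq_mul] at h3
  have h4 : P.t * (HS P B).card * (lC B).card ≤ 1 * (lC B).card := by linarith
  exact le_of_mul_le_mul_right h4 cl

/-- the label of `c` at a cell -/
noncomputable def lab (P : Par) (B : Finset ℤ) (c : ℤ) : ℕ :=
  if Ht P B c then 1 + ((HS P B).filter fun v => v < (ps (mp B) (mt B) c).val).card else 0

theorem mem_HS {P : Par} {B : Finset ℤ} {c : ℤ} (h : Ht P B c) :
    (ps (mp B) (mt B) c).val ∈ HS P B :=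
  Finset.mem_image.2 ⟨c, Finset.mem_filter.2 ⟨h.1, h.2⟩, rfl⟩

theorem lab_le (P : Par) (B : Finset ℤ) (c : ℤ) : lab P B c ≤ (HS P B).card := by
  unfold lab
  split_ifs with h
  · have h1 : ((HS P B).filter fun v => v < (ps (mp B) (mt B) c).val) ⊂ HS P B := by
      rw [Finset.ssubset_iff_of_subset (Finset.filter_subset _ _)]
      refine ⟨_, mem_HS h, ?_⟩
      rw [Finset.mem_filter]
      exact fun h => lt_irrefl _ h.2
    have := Finset.card_lt_card h1
    omega
  · exact Nat.zero_le _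

theorem rank_inj {S : Finset ℕ} {a b : ℕ} (ha : a ∈ S) (hb : b ∈ S)
    (h : (S.filter fun v => v < a).card = (S.filter fun v => v < b).card) : a = b := by
  by_contra hne
  have key : ∀ a b : ℕ, a ∈ S → a < b →
      (S.filter fun v => v < a).card < (S.filter fun v => v < b).card := by
    intro a b ha hab
    apply Finset.card_lt_card
    rw [Finset.ssubset_iff_of_subset]
    · refine ⟨a, Finset.mem_filter.2 ⟨ha, hab⟩, ?_⟩
      rw [Finset.mem_filter]
      exact fun h => lt_irrefl _ h.2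
    · intro v hv
      obtain ⟨h1, h2⟩ := Finset.mem_filter.1 hv
      exact Finset.mem_filter.2 ⟨h1, h2.trans hab⟩
  rcases lt_or_gt_of_ne hne with h1 | h1
  · exact absurd h (key a b ha h1).ne
  · exact absurd h (key b a hb h1).ne'

theorem lab_inj (P : Par) {B : Finset ℤ} (hpr : (mp B).Prime) {c c' : ℤ}
    (h : lab P B c = lab P B c') (hc : Ht P B c) :
    Ht P B c' ∧ ps (mp B) (mt B) c = ps (mp B) (mt B) c' := by
  have : NeZero (mp B) := ⟨hpr.ne_zero⟩
  unfold lab at h
  rw [if_pos hc] at h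
  by_cases hc' : Ht P B c'
  · rw [if_pos hc'] at h
    refine ⟨hc', ZMod.val_injective _ (rank_inj (mem_HS hc) (mem_HS hc') (by omega))⟩
  · rw [if_neg hc'] at h
    omega

theorem padicValInt_of_mul {q : ℕ} (hq : q.Prime) {c : ℤ} {d : ℕ} {T : Finset ℕ} {y : ℕ}
    (hT : ∀ r ∈ T, r.Prime ∧ r < y) (hqy : y ≤ q) (h : c.natAbs = d * ∏ r ∈ T, r)
    (hc : c ≠ 0) : padicValInt q c = padicValNat q d := by
  have hf : Fact q.Prime := ⟨hq⟩
  unfold padicValInt
  have h1 : (∏ r ∈ T, r) ≠ 0 := Finset.prod_ne_zero_iff.2 fun r hr => (hT r hr).1.ne_zero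
  have h2 : d ≠ 0 := by
    rintro rfl
    rw [zero_mul] at h
    exact hc (Int.natAbs_eq_zero.1 h)
  rw [h, padicValNat.mul h2 h1]
  have h3 : padicValNat q (∏ r ∈ T, r) = 0 := by
    apply padicValNat.eq_zero_of_not_dvd
    intro h4
    obtain ⟨r, hr, hqr⟩ := (hq.prime.dvd_finsetProd_iff _).1 h4
    have h5 := (Nat.prime_dvd_prime_iff_eq hq (hT r hr).1).1 hqr
    have h6 := (hT r hr).2
    omega
  rw [h3, add_zero]

/-- the arithmetic of one hit -/
theorem hit_dvd {q t : ℕ} (hq : q.Prime) {c c' : ℤ} {d m m' : ℕ}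
    (hc : c ≠ 0) (hc' : c' ≠ 0) (h : c.natAbs = d * m) (h' : c'.natAbs = d * m')
    (hs : 0 < c ↔ 0 < c') (hv : padicValInt q c = t) (hv' : padicValInt q c' = t)
    (hd : padicValNat q d = t) (hps : ps q t c = ps q t c') : (q : ℤ) ∣ (m : ℤ) - m' := by
  have hf : Fact q.Prime := ⟨hq⟩
  have hqt : ((q : ℤ) ^ t) ≠ 0 := by
    have : (q : ℤ) ≠ 0 := by exact_mod_cast hq.ne_zero
    positivity
  have hd0 : d ≠ 0 := by
    rintro rfl
    rw [zero_mul] at h
    exact hc (Int.natAbs_eq_zero.1 h)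
  obtain ⟨u, hu⟩ : q ^ t ∣ d := (padicValNat_dvd_iff_le hd0).2 hd.ge
  have hqu : ¬ q ∣ u := by
    rintro ⟨w, hw⟩
    have h1 : q ^ (t + 1) ∣ d := ⟨w, by rw [hu, hw]; ring⟩
    have h2 := (padicValNat_dvd_iff_le hd0).1 h1
    omega
  -- the sign
  obtain ⟨σ, hσ, hcσ, hcσ'⟩ : ∃ σ : ℤ, (σ = 1 ∨ σ = -1) ∧ c = σ * c.natAbs ∧
      c' = σ * c'.natAbs := by
    by_cases hp : 0 < c
    · refine ⟨1, Or.inl rfl, ?_, ?_⟩
      · rw [one_mul, Int.natAbs_of_nonneg hp.le]
      · rw [one_mul, Int.natAbs_of_nonneg (hs.1 hp).le]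
    · refine ⟨-1, Or.inr rfl, ?_, ?_⟩
      · push Not at hp
        rw [Int.ofNat_natAbs_of_nonpos hp]; ring
      · have hp' : ¬ 0 < c' := fun h => hp (hs.2 h)
        push Not at hp'
        rw [Int.ofNat_natAbs_of_nonpos hp']; ring
  have e1 : c = (q : ℤ) ^ t * (σ * (u * m)) := by
    rw [hcσ, h, hu]; push_cast; ring
  have e2 : c' = (q : ℤ) ^ t * (σ * (u * m')) := by
    rw [hcσ', h', hu]; push_cast; ring
  unfold ps at hps
  rw [e1, e2, Int.mul_ediv_cancel_left _ hqt, Int.mul_ediv_cancel_left _ hqt,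
    ← sub_eq_zero, ← Int.cast_sub, ZMod.intCast_zmod_eq_zero_iff_dvd] at hps
  have e3 : σ * (↑u * ↑m) - σ * (↑u * ↑m') = σ * (u * ((m : ℤ) - m')) := by ring
  rw [e3] at hps
  have hqp : Prime (q : ℤ) := Nat.prime_iff_prime_int.1 hq
  rcases hqp.dvd_or_dvd hps with h1 | h1
  · exfalso
    rcases hσ with rfl | rfl
    · exact hqp.not_dvd_one h1
    · exact hqp.not_dvd_one ((dvd_neg).1 h1)
  · rcases hqp.dvd_or_dvd h1 with h2 | h2
    · exfalso
      exact hqu (by exact_mod_cast h2)
    · exact h2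

end Pool.Agent.W857.FD
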