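import Pool.Agent.W857.Inj

/-!
The counting inequality.
-/

set_option autoImplicit false

namespace Pool.Agent.W857.FD

open Finset H633R5.FS
open scoped Classical

/-- the `j`-th block of length `W` of the path of `c` -/
noncomputable def blk (P : Par) (A : Finset ℤ) (W j : ℕ) (c : ℤ) : List (Finset ℤ) :=
  ((bl P A c).drop (j * W)).take W

/-- the prime at the end of the `j`-th block -/
noncomputable def yp (P : Par) (A : Finset ℤ) (W j : ℕ) (c : ℤ) : ℕ :=
  mp ((bl P A c).getD ((j + 1) * W - 1) ∅)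

theorem blk_eq (P : Par) (A : Finset ℤ) (W j : ℕ) (c : ℤ) :
    blk P A W j c = ((bl P A c).take ((j + 1) * W)).drop (j * W) := by
  unfold blk
  rw [List.drop_take]
  congr 1
  rw [Nat.add_mul, one_mul]
  omega

theorem getD_of_take {α : Type*} {l l' : List α} {n i : ℕ} (h : l.take n = l'.take n)
    (hi : i < n) (d : α) : l.getD i d = l'.getD i d := by
  rw [List.getD_eq_getElem?_getD, List.getD_eq_getElem?_getD,
    ← List.getElem?_take_of_lt hi, h, List.getElem?_take_of_lt hi]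

/-- the data of a pair in the fibre -/
theorem fibre_take (P : Par) (A : Finset ℤ) (hA : A.Nonempty) (h0 : ∀ c ∈ A, c ≠ 0)
    (W j : ℕ) (hW : 1 ≤ W) {c c' : ℤ} (hc : c ∈ A) (hc' : c' ∈ A)
    (hl : (j + 1) * W ≤ (bl P A c).length)
    {d : ℕ} {T T' : Finset ℕ} (hT : ∀ r ∈ T, r.Prime ∧ r < yp P A W j c)
    (hT' : ∀ r ∈ T', r.Prime ∧ r < yp P A W j c')
    (h : c.natAbs = d * ∏ r ∈ T, r) (h' : c'.natAbs = d * ∏ r ∈ T', r)
    (hyy : yp P A W j c' ≤ yp P A W j c) :
    (bl P A c').take ((j + 1) * W) = (bl P A c).take ((j + 1) * W) := by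
  have hpos : 1 ≤ (j + 1) * W := Nat.one_le_iff_ne_zero.2 (by
    apply Nat.mul_ne_zero <;> omega)
  have h1 := path_eq P A hA h0 c hc c' hc' ((j + 1) * W - 1) (yp P A W j c) ?_ (by omega)
    (le_refl _)
  · rwa [Nat.sub_add_cancel hpos] at h1
  · intro q hq hqy
    rw [padicValInt_of_mul hq hT hqy h (h0 c hc),
      padicValInt_of_mul hq hT' (hyy.trans hqy) h' (h0 c' hc')]

theorem fibre_inj (P : Par) (A : Finset ℤ) (hA : A.Nonempty) (h0 : ∀ c ∈ A, c ≠ 0)
    (W j s : ℕ) (hW : 1 ≤ W) {c c' : ℤ} (hc : c ∈ A) (hc' : c' ∈ A)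
    (hl : (j + 1) * W ≤ (bl P A c).length)
    (hs : s ≤ hits P (blk P A W j c) c)
    {d : ℕ} {T T' : Finset ℕ} (hT : ∀ r ∈ T, r.Prime ∧ r < yp P A W j c)
    (hT' : ∀ r ∈ T', r.Prime ∧ r < yp P A W j c')
    (hTs : T.card = s) (hTs' : T'.card = s)
    (h : c.natAbs = d * ∏ r ∈ T, r) (h' : c'.natAbs = d * ∏ r ∈ T', r)
    (htake : (bl P A c').take ((j + 1) * W) = (bl P A c).take ((j + 1) * W))
    (hlab : ∀ i < W, lab P ((blk P A W j c).getD i ∅) c = lab P ((blk P A W j c').getD i ∅) c')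
    (hsgn : 0 < c ↔ 0 < c') : c = c' ∧ T = T' := by
  have hpos : 1 ≤ (j + 1) * W := Nat.one_le_iff_ne_zero.2 (by
    apply Nat.mul_ne_zero <;> omega)
  have hWle : j * W + W = (j + 1) * W := by ring
  have hblk : blk P A W j c' = blk P A W j c := by rw [blk_eq, blk_eq, htake]
  have hyp : yp P A W j c' = yp P A W j c := by
    unfold yp
    rw [getD_of_take htake (by omega)]
  rw [hyp] at hT'
  set y := yp P A W j c with hy
  set l := bl P A c with hldef
  have hmono := path_mono P A hA h0 c hc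
  rw [← hldef] at hmono
  -- the prime at the end
  have hilt : (j + 1) * W - 1 < l.length := by omega
  have hendmem : l.getD ((j + 1) * W - 1) ∅ ∈ l := by
    rw [List.getD_eq_getElem _ _ hilt]
    exact List.getElem_mem hilt
  have hprime : ∀ B ∈ l, (mp B).Prime := by
    intro B hB
    obtain ⟨h1, _, _, h2⟩ := mem_bl P A hA h0 c hc B hB
    exact ((mem_ncp fun a ha => h0 a (h1 ha)).1 (mp_mem h2)).1
  have hy1 : 1 ≤ y := (hprime _ hendmem).pos
  have hyB : ∀ B ∈ blk P A W j c, B ∈ l ∧ y ≤ mp B := by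
    intro B hB
    rw [blk_eq] at hB
    have h1 := List.mem_of_mem_drop hB
    refine ⟨List.mem_of_mem_take h1, ?_⟩
    rw [← hldef] at h1
    obtain ⟨k, hk, hkB⟩ := List.mem_take_iff_getElem.1 h1
    rw [lt_min_iff] at hk
    rcases Nat.lt_or_ge k ((j + 1) * W - 1) with h2 | h2
    · have h3 := List.pairwise_iff_getElem.1 hmono k ((j + 1) * W - 1) hk.2 hilt h2
      rw [hkB] at h3
      show mp (l.getD ((j + 1) * W - 1) ∅) ≤ mp B
      rw [List.getD_eq_getElem _ _ hilt]
      exact h3.1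
    · have h3 : k = (j + 1) * W - 1 := by omega
      show mp (l.getD ((j + 1) * W - 1) ∅) ≤ mp B
      rw [List.getD_eq_getElem _ _ hilt, ← hkB]
      subst h3
      exact le_refl _
  have hblklen : (blk P A W j c).length = W := by
    unfold blk
    rw [List.length_take, List.length_drop, ← hldef]
    omega
  have hlabB : ∀ B ∈ blk P A W j c, lab P B c = lab P B c' := by
    intro B hB
    obtain ⟨i, hi, hiB⟩ := List.mem_iff_getElem.1 hB
    have h1 := hlab i (by omega)
    rw [hblk, List.getD_eq_getElem _ _ hi, hiB] at h1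
    exact h1
  -- the primes of the hits
  set hl' : List ℕ := ((blk P A W j c).filter fun B => decide (Ht P B c)).map mp with hhl'
  have hnodup : hl'.Nodup := by
    rw [hhl']
    unfold List.Nodup
    rw [List.pairwise_map, List.pairwise_filter]
    have hsub : (blk P A W j c).Sublist l := by
      unfold blk
      exact (List.take_sublist _ _).trans (List.drop_sublist _ _)
    refine (hmono.sublist hsub).imp ?_
    intro B B' hBB' hB _ heq
    have h1 := hBB'.2 (of_decide_eq_true hB).1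
    rw [heq] at h1
    exact lt_irrefl _ h1
  set HP : Finset ℕ := hl'.toFinset with hHP
  have hHPcard : HP.card = hits P (blk P A W j c) c := by
    rw [hHP, List.toFinset_card_of_nodup hnodup, hhl', List.length_map]
    unfold hits
    rw [List.countP_eq_length_filter]
  have hHPmem : ∀ q ∈ HP, q.Prime ∧ y ≤ q ∧ (q : ℤ) ∣ ((∏ r ∈ T, r : ℕ) : ℤ) - (∏ r ∈ T', r : ℕ) := by
    intro q hq
    rw [hHP, List.mem_toFinset, hhl', List.mem_map] at hq
    obtain ⟨B, hB, rfl⟩ := hq
    rw [List.mem_filter] at hB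
    obtain ⟨hBb, hBH⟩ := hB
    have hH : Ht P B c := of_decide_eq_true hBH
    obtain ⟨hBl, hyB'⟩ := hyB B hBb
    have hpr := hprime B hBl
    obtain ⟨hH', hps⟩ := lab_inj P hpr (hlabB B hBb) hH
    have hv := (mem_lC.1 hH.1).2
    have hv' := (mem_lC.1 hH'.1).2
    refine ⟨hpr, hyB', ?_⟩
    exact hit_dvd hpr (h0 c hc) (h0 c' hc') h h' hsgn hv hv'
      (by rw [← padicValInt_of_mul hpr hT hyB' h (h0 c hc)]; exact hv) hps
  -- the products agree
  have hprod : (∏ r ∈ T, r) = ∏ r ∈ T', r := by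
    by_contra hne
    have h1 : (∏ q ∈ HP, q) ∣ (((∏ r ∈ T, r : ℕ) : ℤ) - (∏ r ∈ T', r : ℕ)).natAbs := by
      apply Finset.prod_primes_dvd
      · intro q hq
        exact (hHPmem q hq).1.prime
      · intro q hq
        exact Int.natCast_dvd.1 (hHPmem q hq).2.2
    have h2 : y ^ s ≤ ∏ q ∈ HP, q := by
      calc y ^ s ≤ y ^ HP.card := Nat.pow_le_pow_right hy1 (by rw [hHPcard]; exact hs)
        _ ≤ ∏ q ∈ HP, q := Finset.pow_card_le_prod _ _ _ fun q hq => (hHPmem q hq).2.1
    have h3 : ∏ r ∈ T, r ≤ y ^ s := by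
      rw [← hTs]
      exact Finset.prod_le_pow_card _ _ _ fun r hr => (hT r hr).2.le
    have h4 : ∏ r ∈ T', r ≤ y ^ s := by
      rw [← hTs']
      exact Finset.prod_le_pow_card _ _ _ fun r hr => (hT' r hr).2.le
    have h5 : 0 < ∏ r ∈ T, r := Finset.prod_pos fun r hr => (hT r hr).1.pos
    have h6 : 0 < ∏ r ∈ T', r := Finset.prod_pos fun r hr => (hT' r hr).1.pos
    have h7 : (((∏ r ∈ T, r : ℕ) : ℤ) - (∏ r ∈ T', r : ℕ)).natAbs ≠ 0 := by
      omega
    have h8 := Nat.le_of_dvd (Nat.pos_of_ne_zero h7) h1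
    omega
  have hcc : c.natAbs = c'.natAbs := by rw [h, h', hprod]
  constructor
  · rcases Int.natAbs_eq_natAbs_iff.1 hcc with h1 | h1
    · exact h1
    · exfalso
      have h2 := h0 c' hc'
      omega
  · rw [← Nat.primeFactors_prod fun r hr => (hT r hr).1, hprod,
      Nat.primeFactors_prod fun r hr => (hT' r hr).1]

/-- the good elements for the `j`-th block -/
noncomputable def Gd (P : Par) (A : Finset ℤ) (W j s N₀ : ℕ) : Finset ℤ :=
  A.filter fun c => (j + 1) * W ≤ (bl P A c).length ∧ s ≤ hits P (blk P A W j c) c ∧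
    N₀ ≤ om c (yp P A W j c)

theorem inj_count (P : Par) (A : Finset ℤ) (hA : A.Nonempty) (h0 : ∀ c ∈ A, c ≠ 0)
    (L : ℕ) (ht : 0 < P.t) (hL : 1 ≤ P.t * L) (W j s N₀ : ℕ) (hW : 1 ≤ W) :
    (Gd P A W j s N₀).card * N₀.choose s ≤
      (A.biUnion fun a => a.natAbs.divisors).card * ((L + 1) ^ W * 2) := by
  set pf : ℤ → Finset ℕ := fun c => c.natAbs.primeFactors.filter fun q => q < yp P A W j c
    with hpf
  set X : Finset (Σ _ : ℤ, Finset ℕ) := (Gd P A W j s N₀).sigma fun c => (pf c).powersetCard s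
    with hX
  set D := A.biUnion fun a => a.natAbs.divisors with hD
  have hXcard : (Gd P A W j s N₀).card * N₀.choose s ≤ X.card := by
    rw [hX, Finset.card_sigma, ← smul_eq_mul, ← Finset.sum_const]
    refine Finset.sum_le_sum fun c hc => ?_
    rw [Finset.card_powersetCard]
    exact Nat.choose_le_choose s (Finset.mem_filter.1 hc).2.2.2
  set Φ : (Σ _ : ℤ, Finset ℕ) → ℕ × (Fin W → ℕ) × Bool := fun z =>
    (z.1.natAbs / ∏ r ∈ z.2, r, fun i => lab P ((blk P A W j z.1).getD i ∅) z.1,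
      decide (0 < z.1)) with hΦ
  set Y : Finset (ℕ × (Fin W → ℕ) × Bool) :=
    D ×ˢ ((Fintype.piFinset fun _ : Fin W => Finset.range (L + 1)) ×ˢ Finset.univ) with hY
  have hYcard : Y.card = D.card * ((L + 1) ^ W * 2) := by
    rw [hY, Finset.card_product, Finset.card_product, Fintype.card_piFinset]
    simp
  rw [← hYcard]
  refine hXcard.trans ?_
  have hmemX : ∀ z ∈ X, z.1 ∈ A ∧ (j + 1) * W ≤ (bl P A z.1).length ∧
      s ≤ hits P (blk P A W j z.1) z.1 ∧ (∀ r ∈ z.2, r.Prime ∧ r < yp P A W j z.1) ∧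
      z.2.card = s ∧ z.1.natAbs = (z.1.natAbs / ∏ r ∈ z.2, r) * ∏ r ∈ z.2, r := by
    rintro ⟨c, T⟩ hz
    rw [hX, Finset.mem_sigma] at hz
    obtain ⟨hzG, hzT⟩ := hz
    obtain ⟨hcA, h1, h2, _⟩ := Finset.mem_filter.1 hzG
    obtain ⟨hT1, hT2⟩ := Finset.mem_powersetCard.1 hzT
    refine ⟨hcA, h1, h2, ?_, hT2, ?_⟩
    · intro r hr
      have h3 := Finset.mem_filter.1 (hT1 hr)
      exact ⟨Nat.prime_of_mem_primeFactors h3.1, h3.2⟩
    · symm
      apply Nat.div_mul_cancel
      refine dvd_trans (Finset.prod_dvd_prod_of_subset _ _ _ fun r hr =>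
        (Finset.mem_filter.1 (hT1 hr)).1) (Nat.prod_primeFactors_dvd c.natAbs)
  apply Finset.card_le_card_of_injOn Φ
  · intro z hz
    obtain ⟨hcA, h1, h2, hT, hTs, hdiv⟩ := hmemX z (Finset.mem_coe.1 hz)
    rw [Finset.mem_coe, hY, Finset.mem_product, Finset.mem_product]
    refine ⟨?_, ?_, Finset.mem_univ _⟩
    · show z.1.natAbs / ∏ r ∈ z.2, r ∈ D
      rw [hD, Finset.mem_biUnion]
      refine ⟨z.1, hcA, Nat.mem_divisors.2 ⟨⟨_, hdiv⟩, Int.natAbs_ne_zero.2 (h0 _ hcA)⟩⟩
    · rw [Fintype.mem_piFinset]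
      intro i
      show lab P ((blk P A W j z.1).getD i ∅) z.1 ∈ Finset.range (L + 1)
      rw [Finset.mem_range]
      have hlen : (blk P A W j z.1).length = W := by
        unfold blk
        rw [List.length_take, List.length_drop]
        have : j * W + W = (j + 1) * W := by ring
        omega
      have hi : (i : ℕ) < (blk P A W j z.1).length := by rw [hlen]; exact i.2
      rw [List.getD_eq_getElem _ _ hi]
      have hmem : (blk P A W j z.1)[(i : ℕ)] ∈ bl P A z.1 := by
        have h3 := List.getElem_mem hi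
        unfold blk at h3
        exact List.mem_of_mem_drop (List.mem_of_mem_take h3)
      obtain ⟨hB1, _, _, hB2⟩ := mem_bl P A hA h0 z.1 hcA _ hmem
      have hBpr := ((mem_ncp fun a ha => h0 a (hB1 ha)).1 (mp_mem hB2)).1
      have h3 := lab_le P (blk P A W j z.1)[(i : ℕ)] z.1
      have h4 := card_HS P _ hBpr (lC_nonempty (nonempty_of_ncp hB2))
      have h5 : (HS P (blk P A W j z.1)[(i : ℕ)]).card ≤ L := by
        have : P.t * (HS P (blk P A W j z.1)[(i : ℕ)]).card ≤ P.t * L := h4.trans hL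
        exact_mod_cast le_of_mul_le_mul_left this ht
      omega
  · intro z hz z' hz' hzz'
    obtain ⟨hcA, h1, h2, hT, hTs, hdiv⟩ := hmemX z (Finset.mem_coe.1 hz)
    obtain ⟨hcA', h1', h2', hT', hTs', hdiv'⟩ := hmemX z' (Finset.mem_coe.1 hz')
    simp only [hΦ, Prod.mk.injEq] at hzz'
    obtain ⟨hd, hlab, hsgn⟩ := hzz'
    rw [← hd] at hdiv'
    have hsgn' : 0 < z.1 ↔ 0 < z'.1 := by simpa using hsgn
    have hlab' : ∀ i < W, lab P ((blk P A W j z.1).getD i ∅) z.1 =
        lab P ((blk P A W j z'.1).getD i ∅) z'.1 := by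
      intro i hi
      exact congrFun hlab ⟨i, hi⟩
    have htake : (bl P A z'.1).take ((j + 1) * W) = (bl P A z.1).take ((j + 1) * W) := by
      rcases le_total (yp P A W j z'.1) (yp P A W j z.1) with hyy | hyy
      · exact fibre_take P A hA h0 W j hW hcA hcA' h1 hT hT' hdiv hdiv' hyy
      · exact (fibre_take P A hA h0 W j hW hcA' hcA h1' hT' hT hdiv' hdiv hyy).symm
    obtain ⟨e1, e2⟩ := fibre_inj P A hA h0 W j s hW hcA hcA' h1 h2 hT hT' hTs hTs' hdiv hdiv'
      htake hlab' hsgn'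
    obtain ⟨c, T⟩ := z
    obtain ⟨c', T'⟩ := z'
    simp only at e1 e2
    subst e1
    subst e2
    rfl

theorem pow_le_choose (M : ℕ) (hM : 1 ≤ M) : ∀ s : ℕ, M ^ s ≤ (M * s).choose s := by
  intro s
  induction s with
  | zero => simp
  | succ s ih =>
    have h1 : M * (s + 1) = (M * s + M - 1) + 1 := by
      have : M * (s + 1) = M * s + M := by ring
      omega
    have h2 := Nat.add_one_mul_choose_eq (M * s + M - 1) s
    rw [← h1] at h2
    have h3 : (M * s).choose s ≤ (M * s + M - 1).choose s :=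
      Nat.choose_le_choose s (by omega)
    have h4 : M * (M * s + M - 1).choose s * (s + 1) =
        (M * (s + 1)).choose (s + 1) * (s + 1) := by
      rw [← h2]; ring
    have h5 : M * (M * s + M - 1).choose s = (M * (s + 1)).choose (s + 1) :=
      Nat.eq_of_mul_eq_mul_right (Nat.succ_pos s) h4
    rw [← h5, pow_succ, mul_comm]
    exact Nat.mul_le_mul_left M (ih.trans h3)

end Pool.Agent.W857.FD
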