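import Pool.Agent.W857.Tup

/-!
The numerical lemma with one free factor, and the induction over tuples in this form.
-/

set_option autoImplicit false

namespace Pool.Agent.W857.FD

open Finset H633R5.FS
open scoped Classical

theorem claim (k : ℕ) (hk : 1 ≤ k) (a : ℝ) (ha : 0 < a) (ha1 : a < 1) :
    ∃ xg : ℝ, 0 < xg ∧ ∀ x f f' μ : ℝ, 0 < x → x < 1 → 0 < μ → f' ≤ -μ →
      -(a * Psi x (1 - x)) ≤ (1 - x) * f + x * f' →
      (xg ≤ x → 0 ≤ (1 - x) * f + x * f') → -(Real.exp (-μ) / k) ≤ f := by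
  have hk0 : (1 : ℝ) ≤ k := by exact_mod_cast hk
  have hia : 0 < 1 / a - 1 := by
    have : 1 < 1 / a := by rw [lt_div_iff₀ ha]; linarith
    linarith
  have hlog2k : 0 ≤ Real.log (2 * k) := Real.log_nonneg (by linarith)
  set μ₀ : ℝ := Real.log (2 * k) / (1 / a - 1) with hμ₀
  have hμ₀0 : 0 ≤ μ₀ := div_nonneg hlog2k hia.le
  set u : ℝ := Real.exp (-μ₀) / (4 * k) with hu
  have hu0 : 0 < u := by positivity
  have hexp1 : Real.exp (-μ₀) ≤ 1 := Real.exp_le_one_iff.2 (by linarith)
  have hu1 : u ≤ 1 / 4 := by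
    rw [hu, div_le_div_iff₀ (by positivity) (by norm_num)]
    nlinarith
  refine ⟨u ^ 2, by positivity, ?_⟩
  intro x f f' μ hxj hxj1 hμ0 hf'j h3 h2
  set E : ℝ := Real.exp (-μ) with hE
  have hE0 : 0 < E := Real.exp_pos _
  have hEk : 0 < E / k := by positivity
  by_cases hg : u ^ 2 ≤ x
  · have h3 := h2 hg
    have h4 : x * f' ≤ 0 := mul_nonpos_of_nonneg_of_nonpos hxj.le (by linarith)
    have h5 : 0 ≤ (1 - x) * f := by linarith
    have h6 : 0 ≤ f := by
      by_contra hcon
      push Not at hcon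
      have := mul_neg_of_pos_of_neg (by linarith : 0 < 1 - x) hcon
      linarith
    linarith
  · push Not at hg
    have hxhalf : x ≤ 1 / 2 := by nlinarith
    have h4 : x * f' ≤ -(x * μ) := by nlinarith
    have h5 : a * Psi x (1 - x) - x * μ ≤ E / (2 * k) := by
      by_cases hcase : μ₀ ≤ μ
      · have hPsi := Psi_le hxj hxj1
        have h6 : Real.log (Real.exp (-(μ / a)) / x) ≤ Real.exp (-(μ / a)) / x - 1 :=
          Real.log_le_sub_one_of_pos (by positivity)
        rw [Real.log_div (Real.exp_pos _).ne' hxj.ne', Real.log_exp] at h6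
        have h7 : a * x * (1 + Real.log (1 / x) - μ / a) ≤ a * Real.exp (-(μ / a)) := by
          rw [one_div, Real.log_inv]
          have h8 : a * x * (1 + -Real.log x - μ / a) ≤
              a * x * (Real.exp (-(μ / a)) / x) :=
            mul_le_mul_of_nonneg_left (by linarith) (by positivity)
          have h9 : a * x * (Real.exp (-(μ / a)) / x) = a * Real.exp (-(μ / a)) := by
            field_simp
          linarith
        have h8 : a * x * (1 + Real.log (1 / x) - μ / a) =
            a * (x * (1 + Real.log (1 / x))) - x * μ := by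
          field_simp
        rw [h8] at h7
        have h9 := mul_le_mul_of_nonneg_left hPsi ha.le
        have h10 : a * Real.exp (-(μ / a)) ≤ E / (2 * k) := by
          have h11 : Real.exp (-(μ / a)) ≤ E / (2 * k) := by
            rw [le_div_iff₀ (by positivity)]
            have h12 : (2 * k : ℝ) = Real.exp (Real.log (2 * k)) :=
              (Real.exp_log (by positivity)).symm
            rw [h12, ← Real.exp_add, hE]
            apply Real.exp_le_exp.2
            have h13 : Real.log (2 * k) ≤ μ * (1 / a - 1) := by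
              have := mul_le_mul_of_nonneg_right hcase hia.le
              rw [hμ₀, div_mul_cancel₀ _ hia.ne'] at this
              exact this
            have h14 : μ * (1 / a - 1) = μ / a - μ := by ring
            linarith
          have h12 : a * Real.exp (-(μ / a)) ≤ 1 * Real.exp (-(μ / a)) :=
            mul_le_mul_of_nonneg_right ha1.le (Real.exp_pos _).le
          linarith
        linarith
      · push Not at hcase
        have h6 := Psi_le_sqrt hxj hu0 (by linarith) hg.le
        have h7 : 0 ≤ Psi x (1 - x) := Psi_nonneg hxj.le (by linarith)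
        have h8 : a * Psi x (1 - x) ≤ 1 * Psi x (1 - x) :=
          mul_le_mul_of_nonneg_right ha1.le h7
        have h9 : 2 * u = Real.exp (-μ₀) / (2 * k) := by rw [hu]; ring
        have h10 : Real.exp (-μ₀) / (2 * k) ≤ E / (2 * k) := by
          apply div_le_div_of_nonneg_right _ (by positivity)
          exact Real.exp_le_exp.2 (by linarith)
        have h11 : 0 ≤ x * μ := by positivity
        linarith
    have h6 : -(E / (2 * k)) ≤ (1 - x) * f := by linarith
    by_contra hcon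
    push Not at hcon
    have h7 : (1 - x) * f < (1 - x) * (-(E / k)) :=
      mul_lt_mul_of_pos_left hcon (by linarith)
    have h8 : (1 - x) * (-(E / k)) ≤ 1 / 2 * (-(E / k)) :=
      mul_le_mul_of_nonpos_right (by linarith) (by linarith)
    have h9 : 1 / 2 * (-(E / k)) = -(E / (2 * k)) := by field_simp
    linarith

/-- `y ^ (1 - a) ≤ 1 - κ` in the form we need -/
theorem pow_slack {a κ y : ℝ} (hκ : κ ≤ 1 - (1 / 2 : ℝ) ^ (1 - a)) (ha1 : a < 1)
    (hy : 0 < y) (hy2 : y ≤ 1 / 2) : y ≤ (1 - κ) * y ^ a := by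
  have h1 : y ^ (1 - a) ≤ (1 / 2 : ℝ) ^ (1 - a) :=
    Real.rpow_le_rpow hy.le hy2 (by linarith)
  have h2 : y = y ^ (1 - a) * y ^ a := by
    rw [← Real.rpow_add hy]
    simp
  have h3 : 0 < y ^ a := Real.rpow_pos_of_pos hy a
  calc y = y ^ (1 - a) * y ^ a := h2
    _ ≤ (1 - κ) * y ^ a := mul_le_mul_of_nonneg_right (by linarith) h3.le

theorem num' (k : ℕ) (hk : 1 ≤ k) (a : ℝ) (ha : 0 < a) (ha1 : a < 1) :
    ∃ xg : ℝ, 0 < xg ∧ ∀ {ι : Type} (S : Finset ι) (i₀ : ι), S.Nonempty → S.card ≤ k →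
      ∀ x f f' : ι → ℝ, (∀ j ∈ S, 0 < x j) → (∀ j ∈ S, x j < 1) →
      (∀ j ∈ S, j ≠ i₀ → -(a * Psi (x j) (1 - x j)) ≤ (1 - x j) * f j + x j * f' j) →
      (∀ j ∈ S, j ≠ i₀ → xg ≤ x j → 0 ≤ (1 - x j) * f j + x j * f' j) →
      (i₀ ∈ S → f i₀ = a * Real.log (1 - x i₀) ∧ f' i₀ = a * Real.log (x i₀)) →
      ∃ i ∈ S, 1 ≤ Real.exp (∑ j ∈ S, f j) + Real.exp (f' i) := by
  classical
  have hk0 : (1 : ℝ) ≤ k := by exact_mod_cast hk
  set κ : ℝ := 1 - (1 / 2 : ℝ) ^ (1 - a) with hκ
  have hκ0 : 0 < κ := by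
    have : (1 / 2 : ℝ) ^ (1 - a) < 1 := Real.rpow_lt_one (by norm_num) (by norm_num) (by linarith)
    linarith
  have hκ1 : κ < 1 := by
    have : 0 < (1 / 2 : ℝ) ^ (1 - a) := Real.rpow_pos_of_pos (by norm_num) _
    linarith
  set N : ℕ := ⌈(k : ℝ) / κ⌉₊ with hN
  have hN1 : (k : ℝ) / κ ≤ N := Nat.le_ceil _
  have hkN : (k : ℝ) ≤ κ * N := by
    rw [div_le_iff₀ hκ0] at hN1; linarith
  have hN0 : (1 : ℝ) ≤ N := by
    have h1 : κ * N ≤ 1 * N := mul_le_mul_of_nonneg_right hκ1.le (by positivity)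
    linarith
  have hN0' : 1 ≤ N := by exact_mod_cast hN0
  obtain ⟨xg, hxg, hcl⟩ := claim N hN0' a ha ha1
  refine ⟨xg, hxg, ?_⟩
  intro ι S i₀ hS hSk x f f' hx0 hx1 h1 h2 hfree
  -- a nonnegative jump
  by_cases hpos : ∃ i ∈ S, 0 ≤ f' i
  · obtain ⟨i, hi, hfi⟩ := hpos
    refine ⟨i, hi, ?_⟩
    have h3 := Real.one_le_exp hfi
    have h4 := Real.exp_pos (∑ j ∈ S, f j)
    linarith
  push Not at hpos
  obtain ⟨i, hi, hmax⟩ := Finset.exists_max_image S f' hS
  refine ⟨i, hi, ?_⟩
  set μ : ℝ := -f' i with hμ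
  have hμ0 : 0 < μ := by have := hpos i hi; linarith
  have hf'i : f' i = -μ := by rw [hμ]; ring
  rw [hf'i]
  set E : ℝ := Real.exp (-μ) with hE
  have hE0 : 0 < E := Real.exp_pos _
  have hE1 : E ≤ 1 := Real.exp_le_one_iff.2 (by linarith)
  have hcl' : ∀ j ∈ S.erase i₀, -(E / N) ≤ f j := by
    intro j hj
    obtain ⟨hj1, hj2⟩ := Finset.mem_erase.1 hj
    exact hcl (x j) (f j) (f' j) μ (hx0 j hj2) (hx1 j hj2) hμ0
      (by rw [← hf'i]; exact hmax j hj2) (h1 j hj2 hj1) (h2 j hj2 hj1)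
  have hsum : -(κ * E) ≤ ∑ j ∈ S.erase i₀, f j := by
    have h3 : ∑ _j ∈ S.erase i₀, -(E / N) ≤ ∑ j ∈ S.erase i₀, f j := Finset.sum_le_sum hcl'
    rw [Finset.sum_const, nsmul_eq_mul] at h3
    have h5 : ((S.erase i₀).card : ℝ) ≤ k := by
      exact_mod_cast (Finset.card_le_card (Finset.erase_subset _ _)).trans hSk
    have h6 : ((S.erase i₀).card : ℝ) * (E / N) ≤ (κ * N) * (E / N) :=
      mul_le_mul_of_nonneg_right (h5.trans hkN) (by positivity)
    have h7 : (κ * N) * (E / N) = κ * E := by field_simp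
    linarith
  by_cases hi₀ : i₀ ∈ S
  · obtain ⟨hfi₀, hf'i₀⟩ := hfree hi₀
    rw [← Finset.add_sum_erase S f hi₀, Real.exp_add]
    have hX0 := hx0 i₀ hi₀
    have hX1 := hx1 i₀ hi₀
    set X : ℝ := x i₀ with hX
    have e1 : Real.exp (f i₀) = (1 - X) ^ a := by
      rw [hfi₀, mul_comm, ← Real.rpow_def_of_pos (by linarith)]
    have e2 : X ^ a ≤ E := by
      have h3 := hmax i₀ hi₀
      rw [hf'i, hf'i₀] at h3
      calc X ^ a = Real.exp (a * Real.log X) := by
            rw [mul_comm, ← Real.rpow_def_of_pos hX0]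
        _ ≤ E := Real.exp_le_exp.2 h3
    have e3 : 1 - κ * E ≤ Real.exp (∑ j ∈ S.erase i₀, f j) := by
      have := Real.add_one_le_exp (∑ j ∈ S.erase i₀, f j)
      linarith
    rw [e1]
    have hpa : 0 < (1 - X) ^ a := Real.rpow_pos_of_pos (by linarith) a
    have hpa1 : (1 - X) ^ a ≤ 1 := Real.rpow_le_one (by linarith) (by linarith) ha.le
    have e4 : (1 - X) ^ a * (1 - κ * E) ≤
        (1 - X) ^ a * Real.exp (∑ j ∈ S.erase i₀, f j) :=
      mul_le_mul_of_nonneg_left e3 hpa.le
    have hXa : X ≤ X ^ a := by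
      calc X = X ^ (1 : ℝ) := (Real.rpow_one X).symm
        _ ≤ X ^ a := Real.rpow_le_rpow_of_exponent_ge hX0 hX1.le ha1.le
    have hYa : 1 - X ≤ (1 - X) ^ a := by
      calc 1 - X = (1 - X) ^ (1 : ℝ) := (Real.rpow_one _).symm
        _ ≤ (1 - X) ^ a := Real.rpow_le_rpow_of_exponent_ge (by linarith) (by linarith) ha1.le
    rcases le_total X (1 / 2) with hhalf | hhalf
    · have h3 := pow_slack (le_refl κ) ha1 hX0 hhalf
      have h4 : (1 - κ) * X ^ a ≤ (1 - κ) * E := mul_le_mul_of_nonneg_left e2 (by linarith)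
      have h5 : (1 - X) ^ a * (κ * E) ≤ 1 * (κ * E) :=
        mul_le_mul_of_nonneg_right hpa1 (by positivity)
      linarith
    · have h3 := pow_slack (le_refl κ) ha1 (by linarith : 0 < 1 - X) (by linarith)
      have h4 : (1 - X) ^ a * (1 - κ) ≤ (1 - X) ^ a * (1 - κ * E) := by
        apply mul_le_mul_of_nonneg_left _ hpa.le
        have : κ * E ≤ κ * 1 := mul_le_mul_of_nonneg_left hE1 hκ0.le
        linarith
      linarith
  · rw [Finset.erase_eq_of_notMem hi₀] at hsum
    have h3 := Real.add_one_le_exp (∑ j ∈ S, f j)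
    have h4 : κ * E ≤ 1 * E := mul_le_mul_of_nonneg_right hκ1.le hE0.le
    linarith

/-- the potential of the `i`-th factor, the factor `i₀` being free -/
noncomputable def Gf {k : ℕ} (P : Par) (a e : ℝ) (i₀ i : Fin k) (C R : Finset ℤ) : ℝ :=
  if i = i₀ then a * Real.log C.card else G P a e C R

theorem main2 (k : ℕ) (hk : 1 ≤ k) (i₀ : Fin k) (a e : ℝ) (ha : 0 < a) (ha1 : a < 1)
    (he : 0 < e) :
    ∃ P : Par, 0 < P.x ∧ 0 < P.y ∧ P.y ≤ 1 / 4 ∧ 0 < P.t ∧ 0 < P.b ∧
      ∀ n : ℕ, ∀ C R : Fin k → Finset ℤ, ∑ i, (C i).card = n →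
      (∀ i, (C i).Nonempty) → (∀ i, (R i).Nonempty) → (∀ i, ∀ c ∈ C i, c ≠ 0) →
      Real.exp (∑ i, Gf P a e i₀ i (C i) (R i) - k * Real.log 2) ≤ ((PS C).card : ℝ) := by
  obtain ⟨xg, hxg, hnum⟩ := num' k hk a ha ha1
  obtain ⟨P, hPx, hPy, hPy4, hPt, hPb, hcell⟩ := cell' a e xg ha ha1 he hxg
  refine ⟨P, by rw [hPx]; exact hxg, hPy, hPy4, hPt, hPb, ?_⟩
  intro n
  induction n using Nat.strong_induction_on with
  | _ n ih =>
  intro C R hn hC hR h0
  by_cases hconst : ∀ i, ¬ (ncp (C i)).Nonempty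
  · -- the base case
    have h1 : ∀ i, Gf P a e i₀ i (C i) (R i) ≤ Real.log 2 := by
      intro i
      have hU := U_nonneg P ha.le (C i)
      have h2 : (C i).card ≤ 2 := card_le_two fun c hc c' hc' =>
        natAbs_eq_of_padic (h0 i c hc) (h0 i c' hc') fun p hp => by
          by_contra hne
          exact hconst i ⟨p, (mem_ncp (h0 i)).2 ⟨hp, c, hc, c', hc', hne⟩⟩
      have h3 : Real.log (C i).card ≤ Real.log 2 :=
        Real.log_le_log (by exact_mod_cast (hC i).card_pos) (by exact_mod_cast h2)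
      have h4 : 0 ≤ Real.log (C i).card := Real.log_natCast_nonneg _
      have h5 : a * Real.log (C i).card ≤ Real.log 2 := by nlinarith
      unfold Gf
      split_ifs
      · exact h5
      · refine le_trans (by unfold G; linarith :
          G P a e (C i) (R i) ≤ F a 1 e (C i) (R i)) ?_
        exact (F_le a 1 e zero_le_one he.le (C i) (R i) (hC i) (hR i)).trans h5
    have h2 : ∑ i, Gf P a e i₀ i (C i) (R i) ≤ k * Real.log 2 := by
      calc ∑ i, Gf P a e i₀ i (C i) (R i) ≤ ∑ _i : Fin k, Real.log 2 :=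
            Finset.sum_le_sum fun i _ => h1 i
        _ = k * Real.log 2 := by simp
    have h3 : Real.exp (∑ i, Gf P a e i₀ i (C i) (R i) - k * Real.log 2) ≤ 1 :=
      Real.exp_le_one_iff.2 (by linarith)
    have h4 : (1 : ℝ) ≤ (PS C).card := by exact_mod_cast (PS_nonempty hC).card_pos
    linarith
  -- the induction step
  push Not at hconst
  obtain ⟨i₂, hi₂⟩ := hconst
  obtain ⟨i₁, _, hmax⟩ := Finset.exists_max_image (Finset.univ : Finset (Fin k))
    (fun i => mp (C i)) ⟨i₂, Finset.mem_univ _⟩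
  set p : ℕ := mp (C i₁) with hpdef
  have hi₁ : (ncp (C i₁)).Nonempty := by
    by_contra hcon
    have h1 : mp (C i₁) = 0 := by
      unfold mp
      rw [Finset.not_nonempty_iff_eq_empty.1 hcon]
      rfl
    have h2 := hmax i₂ (Finset.mem_univ _)
    have h3 := ((mem_ncp (h0 i₂)).1 (mp_mem hi₂)).1.pos
    have h4 : mp (C i₂) ≤ mp (C i₁) := h2
    omega
  have hp : p.Prime := ((mem_ncp (h0 i₁)).1 (mp_mem hi₁)).1
  have hpf : Fact p.Prime := ⟨hp⟩
  have hmin : ∀ i, ∃ t : ℕ, (∀ c ∈ C i, t ≤ padicValInt p c) ∧ (lo p t (C i)).Nonempty := by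
    intro i
    obtain ⟨c₀, hc₀, hmin⟩ := Finset.exists_min_image (C i) (fun c => padicValInt p c) (hC i)
    exact ⟨padicValInt p c₀, hmin, ⟨c₀, mem_lo.2 ⟨hc₀, rfl⟩⟩⟩
  choose t ht hlo using hmin
  set S : Finset (Fin k) := Finset.univ.filter (fun i => (hi p (t i) (C i)).Nonempty) with hS
  have hSeq : ∀ i ∈ S, (ncp (C i)).Nonempty ∧ FD.hC (C i) = hi p (t i) (C i) ∧
      lC (C i) = lo p (t i) (C i) := fun i hi' =>
    hC_eq (h0 i) hp (ht i) (Finset.mem_filter.1 hi').2 (hlo i) (hmax i (Finset.mem_univ _))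
  have hSne : S.Nonempty := by
    refine ⟨i₁, Finset.mem_filter.2 ⟨Finset.mem_univ _, ?_⟩⟩
    by_contra hcon
    rw [Finset.not_nonempty_iff_eq_empty] at hcon
    have h1 : ∀ c ∈ C i₁, padicValInt p c = t i₁ := by
      intro c hc
      by_contra h2
      have h3 : c ∈ hi p (t i₁) (C i₁) := mem_hi.2 ⟨hc, h2⟩
      rw [hcon] at h3
      exact absurd h3 (Finset.notMem_empty c)
    obtain ⟨_, c₁, hc₁, c₂, hc₂, hne⟩ := (mem_ncp (h0 i₁)).1 (mp_mem hi₁)
    exact hne ((h1 c₁ hc₁).trans (h1 c₂ hc₂).symm)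
  have hSk : S.card ≤ k := by
    have := Finset.card_le_univ S
    simpa using this
  set x : Fin k → ℝ := fun i => ((hi p (t i) (C i)).card : ℝ) / (C i).card with hx
  have hcellS : ∀ i, ∃ R' R'' : Finset ℤ, R'.Nonempty ∧ R''.Nonempty ∧ (i ∈ S → i ≠ i₀ →
      (-(a * Psi (x i) (1 - x i)) ≤
        (1 - x i) * (G P a e (lo p (t i) (C i)) R' - G P a e (C i) (R i)) +
          x i * (G P a e (hi p (t i) (C i)) R'' - G P a e (C i) (R i))) ∧
        (xg ≤ x i → 0 ≤ (1 - x i) * (G P a e (lo p (t i) (C i)) R' - G P a e (C i) (R i)) +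
          x i * (G P a e (hi p (t i) (C i)) R'' - G P a e (C i) (R i)))) ∧
      (i ∉ S → R' = R i) := by
    intro i
    by_cases hiS : i ∈ S
    · obtain ⟨hs1, hs2, hs3⟩ := hSeq i hiS
      obtain ⟨R', R'', hR', hR'', h1, h2⟩ := hcell (C i) (R i) (hR i) (h0 i) hs1 (x i)
        (by rw [hs2])
      rw [hs2, hs3] at h1 h2
      exact ⟨R', R'', hR', hR'', fun _ _ => ⟨h1, h2⟩, fun h => absurd hiS h⟩
    · exact ⟨R i, R i, hR i, hR i, fun h => absurd h hiS, fun _ => rfl⟩
  choose R' R'' hR' hR'' hstep hstay using hcellS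
  set f : Fin k → ℝ := fun i =>
    Gf P a e i₀ i (lo p (t i) (C i)) (R' i) - Gf P a e i₀ i (C i) (R i) with hf
  set f' : Fin k → ℝ := fun i =>
    Gf P a e i₀ i (hi p (t i) (C i)) (R'' i) - Gf P a e i₀ i (C i) (R i) with hf'
  have hcardi : ∀ i, ((hi p (t i) (C i)).card : ℝ) + (lo p (t i) (C i)).card = (C i).card :=
    fun i => by exact_mod_cast card_hi_lo p (t i) (C i)
  have hfG : ∀ j, j ≠ i₀ → f j = G P a e (lo p (t j) (C j)) (R' j) - G P a e (C j) (R j) := by
    intro j hj
    show Gf P a e i₀ j (lo p (t j) (C j)) (R' j) - Gf P a e i₀ j (C j) (R j) = _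
    unfold Gf
    rw [if_neg hj, if_neg hj]
  have hf'G : ∀ j, j ≠ i₀ → f' j = G P a e (hi p (t j) (C j)) (R'' j) - G P a e (C j) (R j) := by
    intro j hj
    show Gf P a e i₀ j (hi p (t j) (C j)) (R'' j) - Gf P a e i₀ j (C j) (R j) = _
    unfold Gf
    rw [if_neg hj, if_neg hj]
  obtain ⟨i, hiS, hi1⟩ := hnum S i₀ hSne hSk x f f' (fun j hj => by
      have h1 : (0 : ℝ) < (hi p (t j) (C j)).card := by
        exact_mod_cast (Finset.mem_filter.1 hj).2.card_pos
      have h2 : (0 : ℝ) < (C j).card := by exact_mod_cast (hC j).card_pos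
      show 0 < ((hi p (t j) (C j)).card : ℝ) / (C j).card
      positivity) (fun j _ => by
      have h1 : (0 : ℝ) < (lo p (t j) (C j)).card := by exact_mod_cast (hlo j).card_pos
      have h2 : (0 : ℝ) < (C j).card := by exact_mod_cast (hC j).card_pos
      have h3 := hcardi j
      show ((hi p (t j) (C j)).card : ℝ) / (C j).card < 1
      rw [div_lt_one h2]
      linarith)
      (fun j hj hj0 => by rw [hfG j hj0, hf'G j hj0]; exact (hstep j hj hj0).1)
      (fun j hj hj0 => by rw [hfG j hj0, hf'G j hj0]; exact (hstep j hj hj0).2)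
      (fun hj => by
        have h1 : (0 : ℝ) < (lo p (t i₀) (C i₀)).card := by exact_mod_cast (hlo i₀).card_pos
        have h1' : (0 : ℝ) < (hi p (t i₀) (C i₀)).card := by
          exact_mod_cast (Finset.mem_filter.1 hj).2.card_pos
        have h2 : (0 : ℝ) < (C i₀).card := by exact_mod_cast (hC i₀).card_pos
        have h3 := hcardi i₀
        constructor
        · show Gf P a e i₀ i₀ (lo p (t i₀) (C i₀)) (R' i₀) - Gf P a e i₀ i₀ (C i₀) (R i₀) = _
          unfold Gf
          rw [if_pos rfl, if_pos rfl]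
          have h4 : 1 - x i₀ = ((lo p (t i₀) (C i₀)).card : ℝ) / (C i₀).card := by
            show 1 - ((hi p (t i₀) (C i₀)).card : ℝ) / (C i₀).card = _
            field_simp
            linarith
          rw [h4, Real.log_div h1.ne' h2.ne']
          ring
        · show Gf P a e i₀ i₀ (hi p (t i₀) (C i₀)) (R'' i₀) - Gf P a e i₀ i₀ (C i₀) (R i₀) = _
          unfold Gf
          rw [if_pos rfl, if_pos rfl]
          show _ = a * Real.log (((hi p (t i₀) (C i₀)).card : ℝ) / (C i₀).card)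
          rw [Real.log_div h1'.ne' h2.ne']
          ring)
  have hloC : ∀ j, j ∉ S → lo p (t j) (C j) = C j := by
    intro j hj
    have h1 : hi p (t j) (C j) = ∅ := by
      rw [← Finset.not_nonempty_iff_eq_empty]
      intro h
      exact hj (Finset.mem_filter.2 ⟨Finset.mem_univ _, h⟩)
    apply Finset.Subset.antisymm (lo_subset _ _ _)
    intro c hc
    refine mem_lo.2 ⟨hc, ?_⟩
    by_contra h2
    have h3 : c ∈ hi p (t j) (C j) := mem_hi.2 ⟨hc, h2⟩
    rw [h1] at h3
    exact absurd h3 (Finset.notMem_empty c)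
  -- the two smaller tuples
  have hiC : (hi p (t i) (C i)).Nonempty := (Finset.mem_filter.1 hiS).2
  have hsum1 : ∑ j, (lo p (t j) (C j)).card < n := by
    rw [← hn]
    apply Finset.sum_lt_sum
    · intro j _
      exact Finset.card_le_card (lo_subset _ _ _)
    · refine ⟨i, Finset.mem_univ _, ?_⟩
      have h1 := card_hi_lo p (t i) (C i)
      have h2 := hiC.card_pos
      omega
  have hsum2 : ∑ j, (Function.update C i (hi p (t i) (C i)) j).card < n := by
    rw [← hn]
    apply Finset.sum_lt_sum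
    · intro j _
      by_cases hj : j = i
      · subst hj
        rw [Function.update_self]
        exact Finset.card_le_card (hi_subset _ _ _)
      · rw [Function.update_of_ne hj]
    · refine ⟨i, Finset.mem_univ _, ?_⟩
      rw [Function.update_self]
      have h1 := card_hi_lo p (t i) (C i)
      have h2 := (hlo i).card_pos
      omega
  have hupd : ∀ j, Function.update C i (hi p (t i) (C i)) j ⊆ C j := by
    intro j
    by_cases hj : j = i
    · subst hj
      rw [Function.update_self]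
      exact hi_subset _ _ _
    · rw [Function.update_of_ne hj]
  have ih1 := ih _ hsum1 (fun j => lo p (t j) (C j)) R' rfl hlo hR'
    (fun j c hc => h0 j c (lo_subset _ _ _ hc))
  have ih2 := ih _ hsum2 (Function.update C i (hi p (t i) (C i))) (Function.update R i (R'' i))
    rfl
    (fun j => by
      by_cases hj : j = i
      · subst hj
        rw [Function.update_self]
        exact hiC
      · rw [Function.update_of_ne hj]
        exact hC j)
    (fun j => by
      by_cases hj : j = i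
      · subst hj
        rw [Function.update_self]
        exact hR'' j
      · rw [Function.update_of_ne hj]
        exact hR j)
    (fun j c hc => h0 j c (hupd j hc))
  have hrule := PS_rule p C (fun j => lo p (t j) (C j)) (Function.update C i (hi p (t i) (C i)))
    h0 (fun j => lo_subset _ _ _) hupd t ht (fun j c hc => (mem_lo.1 hc).2) i
    (fun c hc => by
      rw [Function.update_self] at hc
      exact (mem_hi.1 hc).2)
  have hrule' : ((PS fun j => lo p (t j) (C j)).card : ℝ) +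
      (PS (Function.update C i (hi p (t i) (C i)))).card ≤ (PS C).card := by
    exact_mod_cast hrule
  -- the potentials
  have e1 : ∑ j, Gf P a e i₀ j (lo p (t j) (C j)) (R' j) =
      ∑ j, Gf P a e i₀ j (C j) (R j) + ∑ j ∈ S, f j := by
    have h1 : ∑ j ∈ S, f j = ∑ j, f j := by
      apply Finset.sum_subset (Finset.subset_univ _)
      intro j _ hj
      show Gf P a e i₀ j (lo p (t j) (C j)) (R' j) - Gf P a e i₀ j (C j) (R j) = 0
      rw [hloC j hj, hstay j hj, sub_self]
    rw [h1, ← Finset.sum_add_distrib]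
    refine Finset.sum_congr rfl fun j _ => ?_
    show Gf P a e i₀ j (lo p (t j) (C j)) (R' j) = Gf P a e i₀ j (C j) (R j) +
      (Gf P a e i₀ j (lo p (t j) (C j)) (R' j) - Gf P a e i₀ j (C j) (R j))
    ring
  have e2 : ∑ j, Gf P a e i₀ j (Function.update C i (hi p (t i) (C i)) j)
      (Function.update R i (R'' i) j) = ∑ j, Gf P a e i₀ j (C j) (R j) + f' i := by
    rw [← Finset.add_sum_erase _ _ (Finset.mem_univ i),
      ← Finset.add_sum_erase _ (fun j => Gf P a e i₀ j (C j) (R j)) (Finset.mem_univ i)]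
    rw [Function.update_self, Function.update_self]
    have h1 : ∑ j ∈ Finset.univ.erase i,
        Gf P a e i₀ j (Function.update C i (hi p (t i) (C i)) j)
        (Function.update R i (R'' i) j) =
        ∑ j ∈ Finset.univ.erase i, Gf P a e i₀ j (C j) (R j) := by
      refine Finset.sum_congr rfl fun j hj => ?_
      have hj' : j ≠ i := (Finset.mem_erase.1 hj).1
      rw [Function.update_of_ne hj', Function.update_of_ne hj']
    rw [h1]
    show Gf P a e i₀ i (hi p (t i) (C i)) (R'' i) +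
        ∑ j ∈ Finset.univ.erase i, Gf P a e i₀ j (C j) (R j) =
      Gf P a e i₀ i (C i) (R i) + ∑ j ∈ Finset.univ.erase i, Gf P a e i₀ j (C j) (R j) +
        (Gf P a e i₀ i (hi p (t i) (C i)) (R'' i) - Gf P a e i₀ i (C i) (R i))
    ring
  rw [e1] at ih1
  rw [e2] at ih2
  set T : ℝ := ∑ j, Gf P a e i₀ j (C j) (R j) - k * Real.log 2 with hT
  have e3 : ∑ j, Gf P a e i₀ j (C j) (R j) + ∑ j ∈ S, f j - k * Real.log 2 =
      T + ∑ j ∈ S, f j := by
    rw [hT]; ring
  have e4 : ∑ j, Gf P a e i₀ j (C j) (R j) + f' i - k * Real.log 2 = T + f' i := by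
    rw [hT]; ring
  rw [e3, Real.exp_add] at ih1
  rw [e4, Real.exp_add] at ih2
  have h1 : Real.exp T * 1 ≤ Real.exp T * (Real.exp (∑ j ∈ S, f j) + Real.exp (f' i)) :=
    mul_le_mul_of_nonneg_left hi1 (Real.exp_pos _).le
  linarith

end Pool.Agent.W857.FD
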