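import Pool.Agent.H633R5.FS.Main
import Pool.Agent.W857.Cls

/-!
The decomposition tree of a finite set of integers along its primes in decreasing order.
-/

set_option autoImplicit false

namespace Pool.Agent.W857.FD

open Finset H633R5.FS
open scoped Classical

/-- the primes whose valuation is not constant on `C` -/
noncomputable def ncp (C : Finset ℤ) : Finset ℕ :=
  (C.biUnion fun c => c.natAbs.primeFactors).filter fun p =>
    ∃ c ∈ C, ∃ c' ∈ C, padicValInt p c ≠ padicValInt p c'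

/-- the largest prime whose valuation is not constant on `C` -/
noncomputable def mp (C : Finset ℤ) : ℕ := (ncp C).sup id

/-- the least valuation -/
noncomputable def mt (C : Finset ℤ) : ℕ := sInf {n | ∃ c ∈ C, padicValInt (mp C) c = n}

/-- the elements more divisible by `mp C` -/
noncomputable def hC (C : Finset ℤ) : Finset ℤ := hi (mp C) (mt C) C

/-- the elements least divisible by `mp C` -/
noncomputable def lC (C : Finset ℤ) : Finset ℤ := lo (mp C) (mt C) C

theorem mem_ncp {C : Finset ℤ} (h0 : ∀ c ∈ C, c ≠ 0) {p : ℕ} :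
    p ∈ ncp C ↔ p.Prime ∧ ∃ c ∈ C, ∃ c' ∈ C, padicValInt p c ≠ padicValInt p c' := by
  unfold ncp
  rw [Finset.mem_filter, Finset.mem_biUnion]
  constructor
  · rintro ⟨⟨c, _, hc⟩, h⟩
    exact ⟨Nat.prime_of_mem_primeFactors hc, h⟩
  · rintro ⟨hp, c, hc, c', hc', hne⟩
    refine ⟨?_, c, hc, c', hc', hne⟩
    have key : ∀ d ∈ C, padicValInt p d ≠ 0 → ∃ a ∈ C, p ∈ a.natAbs.primeFactors := by
      intro d hd hv
      refine ⟨d, hd, Nat.mem_primeFactors.2 ⟨hp, ?_, Int.natAbs_ne_zero.2 (h0 d hd)⟩⟩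
      exact dvd_of_one_le_padicValNat (Nat.one_le_iff_ne_zero.2 hv)
    by_cases h1 : padicValInt p c = 0
    · exact key c' hc' (by rw [h1] at hne; exact hne.symm)
    · exact key c hc h1

theorem ncp_mono {C D : Finset ℤ} (h : C ⊆ D) : ncp C ⊆ ncp D := by
  intro p hp
  unfold ncp at hp ⊢
  rw [Finset.mem_filter, Finset.mem_biUnion] at hp ⊢
  obtain ⟨⟨c, hc, hcp⟩, a, ha, b, hb, hab⟩ := hp
  exact ⟨⟨c, h hc, hcp⟩, a, h ha, b, h hb, hab⟩

theorem mp_mono {C D : Finset ℤ} (h : C ⊆ D) : mp C ≤ mp D := Finset.sup_mono (ncp_mono h)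

theorem mp_mem {C : Finset ℤ} (h : (ncp C).Nonempty) : mp C ∈ ncp C := by
  unfold mp
  obtain ⟨p, hp, hpe⟩ := Finset.exists_mem_eq_sup (ncp C) h id
  rw [hpe]
  exact hp

theorem le_mp {C : Finset ℤ} {p : ℕ} (h : p ∈ ncp C) : p ≤ mp C :=
  Finset.le_sup (f := id) h

theorem mt_le {C : Finset ℤ} {c : ℤ} (hc : c ∈ C) : mt C ≤ padicValInt (mp C) c :=
  Nat.sInf_le ⟨c, hc, rfl⟩

theorem mt_mem {C : Finset ℤ} (h : C.Nonempty) : ∃ c ∈ C, padicValInt (mp C) c = mt C := by
  obtain ⟨c, hc⟩ := h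
  exact Nat.sInf_mem (s := {n | ∃ c ∈ C, padicValInt (mp C) c = n}) ⟨_, c, hc, rfl⟩

theorem mem_hC {C : Finset ℤ} {c : ℤ} : c ∈ hC C ↔ c ∈ C ∧ padicValInt (mp C) c ≠ mt C := mem_hi

theorem mem_lC {C : Finset ℤ} {c : ℤ} : c ∈ lC C ↔ c ∈ C ∧ padicValInt (mp C) c = mt C := mem_lo

theorem hC_subset (C : Finset ℤ) : hC C ⊆ C := hi_subset _ _ _

theorem lC_subset (C : Finset ℤ) : lC C ⊆ C := lo_subset _ _ _

theorem card_hC_lC (C : Finset ℤ) : (hC C).card + (lC C).card = C.card := card_hi_lo _ _ _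

theorem lC_nonempty {C : Finset ℤ} (h : C.Nonempty) : (lC C).Nonempty := by
  obtain ⟨c, hc, hct⟩ := mt_mem h
  exact ⟨c, mem_lC.2 ⟨hc, hct⟩⟩

theorem hC_nonempty {C : Finset ℤ} (h : (ncp C).Nonempty) : (hC C).Nonempty := by
  have h1 := mp_mem h
  have h2 := (Finset.mem_filter.1 h1).2
  obtain ⟨c, hc, c', hc', hne⟩ := h2
  by_cases h3 : padicValInt (mp C) c = mt C
  · exact ⟨c', mem_hC.2 ⟨hc', fun h4 => hne (h3.trans h4.symm)⟩⟩
  · exact ⟨c, mem_hC.2 ⟨hc, h3⟩⟩

theorem nonempty_of_ncp {C : Finset ℤ} (h : (ncp C).Nonempty) : C.Nonempty :=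
  (hC_nonempty h).mono (hC_subset C)

theorem hC_lt {C : Finset ℤ} (h : (ncp C).Nonempty) : (hC C).card < C.card := by
  have h1 := card_hC_lC C
  have h2 := (lC_nonempty (nonempty_of_ncp h)).card_pos
  omega

theorem lC_lt {C : Finset ℤ} (h : (ncp C).Nonempty) : (lC C).card < C.card := by
  have h1 := card_hC_lC C
  have h2 := (hC_nonempty h).card_pos
  omega

theorem disj_hC_lC (C : Finset ℤ) : Disjoint (hC C) (lC C) := by
  rw [Finset.disjoint_left]
  intro c h1 h2
  exact (mem_hC.1 h1).2 (mem_lC.1 h2).2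

theorem hC_union_lC (C : Finset ℤ) : hC C ∪ lC C = C := by
  ext c
  rw [Finset.mem_union, mem_hC, mem_lC]
  tauto

theorem sum_hC_lC {M : Type*} [AddCommMonoid M] (C : Finset ℤ) (f : ℤ → M) :
    ∑ c ∈ C, f c = ∑ c ∈ hC C, f c + ∑ c ∈ lC C, f c := by
  rw [← Finset.sum_union (disj_hC_lC C), hC_union_lC]

/-- induction along the tree -/
theorem tree_ind (P : Finset ℤ → Prop)
    (h0 : ∀ C : Finset ℤ, C.Nonempty → (∀ c ∈ C, c ≠ 0) → ¬ (ncp C).Nonempty → P C)
    (h1 : ∀ C : Finset ℤ, (∀ c ∈ C, c ≠ 0) → (ncp C).Nonempty → P (hC C) → P (lC C) → P C) :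
    ∀ C : Finset ℤ, C.Nonempty → (∀ c ∈ C, c ≠ 0) → P C := by
  have key : ∀ n : ℕ, ∀ C : Finset ℤ, C.card = n → C.Nonempty → (∀ c ∈ C, c ≠ 0) → P C := by
    intro n
    induction n using Nat.strong_induction_on with
    | _ n ih =>
    intro C hn hC' hz
    by_cases h : (ncp C).Nonempty
    · refine h1 C hz h ?_ ?_
      · exact ih _ (by rw [← hn]; exact hC_lt h) _ rfl (hC_nonempty h)
          fun c hc => hz c (hC_subset C hc)
      · exact ih _ (by rw [← hn]; exact lC_lt h) _ rfl (lC_nonempty hC')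
          fun c hc => hz c (lC_subset C hc)
    · exact h0 C hC' hz h
  intro C
  exact key _ C rfl

/-- the parameters -/
structure Par where
  x : ℝ
  y : ℝ
  t : ℝ
  b : ℝ

/-- `c` lies in a heavy class of the low part -/
def Hv (P : Par) (C : Finset ℤ) (c : ℤ) : Prop :=
  P.t * (lC C).card ≤
    ((lC C).filter fun c' => ps (mp C) (mt C) c' = ps (mp C) (mt C) c).card

/-- balanced cells with heavy classes -/
def Bd (P : Par) (C : Finset ℤ) : Prop :=
  P.x * C.card ≤ (hC C).card ∧ ((hC C).card : ℝ) ≤ (1 - P.y) * C.card ∧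
    P.b * (lC C).card ≤ ((lC C).filter fun c => Hv P C c).card

/-- the child containing `c` -/
noncomputable def nx (C : Finset ℤ) (c : ℤ) : Finset ℤ :=
  if padicValInt (mp C) c ≠ mt C then hC C else lC C

theorem nx_hi {C : Finset ℤ} {c : ℤ} (hc : c ∈ hC C) : nx C c = hC C :=
  if_pos (mem_hC.1 hc).2

theorem nx_lo {C : Finset ℤ} {c : ℤ} (hc : c ∈ lC C) : nx C c = lC C :=
  if_neg (not_not.2 (mem_lC.1 hc).2)

/-- the bad cells on the path of `c` -/
noncomputable def bl (P : Par) (C : Finset ℤ) (c : ℤ) : List (Finset ℤ) :=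
  if _h : (nx C c).card < C.card then
    (if Bd P C then [C] else []) ++ bl P (nx C c) c else []
termination_by C.card

theorem bl_hi (P : Par) {C : Finset ℤ} (h : (ncp C).Nonempty) {c : ℤ} (hc : c ∈ hC C) :
    bl P C c = (if Bd P C then [C] else []) ++ bl P (hC C) c := by
  rw [bl, nx_hi hc, dif_pos (hC_lt h)]

theorem bl_lo (P : Par) {C : Finset ℤ} (h : (ncp C).Nonempty) {c : ℤ} (hc : c ∈ lC C) :
    bl P C c = (if Bd P C then [C] else []) ++ bl P (lC C) c := by
  rw [bl, nx_lo hc, dif_pos (lC_lt h)]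

theorem bl_nx (P : Par) {C : Finset ℤ} (h : (ncp C).Nonempty) (c : ℤ) :
    bl P C c = (if Bd P C then [C] else []) ++ bl P (nx C c) c := by
  rw [bl, dif_pos]
  unfold nx
  split_ifs
  · exact hC_lt h
  · exact lC_lt h

theorem bl_nil (P : Par) {C : Finset ℤ} (h : ¬ (ncp C).Nonempty) (h0 : ∀ c ∈ C, c ≠ 0) {c : ℤ}
    (hc : c ∈ C) : bl P C c = [] := by
  have h1 : nx C c = C := by
    have hC0 : hC C = ∅ := by
      by_contra hne
      obtain ⟨d, hd⟩ := Finset.nonempty_iff_ne_empty.2 hne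
      obtain ⟨hdC, hdt⟩ := mem_hC.1 hd
      obtain ⟨d', hd', hdt'⟩ := mt_mem ⟨c, hc⟩
      by_cases hp : (mp C).Prime
      · exact h ⟨mp C, (mem_ncp h0).2 ⟨hp, d, hdC, d', hd', fun h2 => hdt (h2.trans hdt')⟩⟩
      · have hmp : mp C = 0 := by
          unfold mp
          rw [Finset.not_nonempty_iff_eq_empty.1 h]
          rfl
        have hz : ∀ a : ℤ, padicValInt (mp C) a = 0 := by
          intro a
          rw [hmp]
          unfold padicValInt
          simp
        rw [hz] at hdt hdt'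
        exact hdt hdt'
    have hl : lC C = C := by
      have := hC_union_lC C
      rw [hC0, Finset.empty_union] at this
      exact this
    unfold nx
    split_ifs with h2
    · exfalso
      have : c ∈ hC C := mem_hC.2 ⟨hc, h2⟩
      rw [hC0] at this
      exact absurd this (Finset.notMem_empty c)
    · exact hl
  rw [bl, h1, dif_neg (lt_irrefl _)]

/-- the number of bad cells, summed over the elements of `C` -/
noncomputable def nbs (P : Par) (C : Finset ℤ) : ℝ := ∑ c ∈ C, ((bl P C c).length : ℝ)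

theorem nbs_nonneg (P : Par) (C : Finset ℤ) : 0 ≤ nbs P C :=
  Finset.sum_nonneg fun c _ => by positivity

theorem nbs_nil (P : Par) {C : Finset ℤ} (h : ¬ (ncp C).Nonempty) (h0 : ∀ c ∈ C, c ≠ 0) :
    nbs P C = 0 := by
  unfold nbs
  apply Finset.sum_eq_zero
  intro c hc
  rw [bl_nil P h h0 hc]
  simp

theorem nbs_eq (P : Par) {C : Finset ℤ} (h : (ncp C).Nonempty) :
    nbs P C = (if Bd P C then (C.card : ℝ) else 0) + nbs P (hC C) + nbs P (lC C) := by
  have h1 : ∀ D : Finset ℤ, (∀ c ∈ D, bl P C c = (if Bd P C then [C] else []) ++ bl P D c) →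
      ∑ c ∈ D, ((bl P C c).length : ℝ) = (if Bd P C then (D.card : ℝ) else 0) + nbs P D := by
    intro D hD
    have h2 : ∀ c ∈ D, ((bl P C c).length : ℝ) = (if Bd P C then 1 else 0) +
        ((bl P D c).length : ℝ) := by
      intro c hc
      rw [hD c hc, List.length_append]
      split_ifs <;> simp
    rw [Finset.sum_congr rfl h2, Finset.sum_add_distrib, Finset.sum_const, nsmul_eq_mul]
    unfold nbs
    split_ifs <;> ring
  have h2 : ((hC C).card : ℝ) + (lC C).card = C.card := by exact_mod_cast card_hC_lC C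
  unfold nbs
  rw [sum_hC_lC C, h1 (hC C) fun c hc => bl_hi P h hc, h1 (lC C) fun c hc => bl_lo P h hc]
  unfold nbs
  split_ifs <;> linarith

end Pool.Agent.W857.FD
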