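import Pool.Agent.W857.Tree

/-!
The induction over `k`-tuples with coefficient one for the entropy gain and a penalty for the bad
cells.
-/

set_option autoImplicit false

namespace Pool.Agent.W857.FD

open Finset H633R5.FS
open scoped Classical
open scoped Pointwise

/-- the penalty -/
noncomputable def U (P : Par) (a : ℝ) (C : Finset ℤ) : ℝ :=
  a * Real.log 2 * (nbs P C / C.card)

theorem U_nonneg (P : Par) {a : ℝ} (ha : 0 ≤ a) (C : Finset ℤ) : 0 ≤ U P a C := by
  unfold U
  have h1 := nbs_nonneg P C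
  have h2 : 0 ≤ Real.log 2 := Real.log_nonneg (by norm_num)
  positivity

/-- the potential with penalty -/
noncomputable def G (P : Par) (a e : ℝ) (C R : Finset ℤ) : ℝ := F a 1 e C R - U P a C

theorem heavy_mass (P : Par) (C : Finset ℤ) [Fact (mp C).Prime] (hlo : (lC C).Nonempty)
    (h : (((lC C).filter fun c => Hv P C c).card : ℝ) < P.b * (lC C).card) :
    ∑ z, (if P.t ≤ dw (lC C) (ps (mp C) (mt C)) z then dw (lC C) (ps (mp C) (mt C)) z else 0) <
      P.b := by
  have cl : (0 : ℝ) < (lC C).card := by exact_mod_cast hlo.card_pos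
  have h1 : (((lC C).filter fun c => Hv P C c).card : ℝ) = (lC C).card *
      ∑ z, (if P.t ≤ dw (lC C) (ps (mp C) (mt C)) z then
        dw (lC C) (ps (mp C) (mt C)) z else 0) := by
    rw [Finset.mul_sum, Finset.card_eq_sum_card_fiberwise (f := ps (mp C) (mt C))
      (s := (lC C).filter fun c => Hv P C c) (t := Finset.univ)
      (fun _ _ => Finset.mem_coe.2 (Finset.mem_univ _))]
    push_cast
    refine Finset.sum_congr rfl fun z _ => ?_
    rw [Finset.filter_filter]
    split_ifs with hz
    · rw [card_mul_dw _ hlo]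
      congr 2
      apply Finset.filter_congr
      intro c _
      constructor
      · exact fun h => h.2
      · intro hcz
        refine ⟨?_, hcz⟩
        unfold Hv
        rw [hcz, ← card_mul_dw _ hlo, mul_comm]
        exact mul_le_mul_of_nonneg_left hz cl.le
    · rw [mul_zero]
      have : (lC C).filter (fun c => Hv P C c ∧ ps (mp C) (mt C) c = z) = ∅ := by
        apply Finset.filter_eq_empty_iff.2
        rintro c _ ⟨h1, h2⟩
        apply hz
        unfold Hv at h1
        rw [h2, ← card_mul_dw _ hlo, mul_comm] at h1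
        exact le_of_mul_le_mul_left h1 cl
      rw [this]
      simp
  rw [h1, mul_comm] at h
  exact lt_of_mul_lt_mul_right h cl.le

theorem cell' (a e xg : ℝ) (ha : 0 < a) (ha1 : a < 1) (he : 0 < e) (hxg : 0 < xg) :
    ∃ P : Par, P.x = xg ∧ 0 < P.y ∧ P.y ≤ 1 / 4 ∧ 0 < P.t ∧ 0 < P.b ∧
      ∀ (C R : Finset ℤ), R.Nonempty → (∀ c ∈ C, c ≠ 0) → (ncp C).Nonempty → ∀ x : ℝ,
      x = ((hC C).card : ℝ) / C.card →
      ∃ R' R'' : Finset ℤ, R'.Nonempty ∧ R''.Nonempty ∧
        -(a * Psi x (1 - x)) ≤ (1 - x) * (G P a e (lC C) R' - G P a e C R) +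
          x * (G P a e (hC C) R'' - G P a e C R) ∧
        (xg ≤ x → 0 ≤ (1 - x) * (G P a e (lC C) R' - G P a e C R) +
          x * (G P a e (hC C) R'' - G P a e C R)) := by
  obtain ⟨y₀, hy₀, hy₀4, hnear⟩ := near a e ha1 he
  obtain ⟨τ, β, hτ, hβ, hmid⟩ := middle a e xg y₀ ha1 he hxg hy₀
  set P : Par := ⟨xg, y₀, τ, β⟩ with hP
  refine ⟨P, rfl, hy₀, hy₀4, hτ, hβ, ?_⟩
  intro C R hR h0 hnc x hx
  have hpmem := mp_mem hnc
  have hpr : (mp C).Prime := ((mem_ncp h0).1 hpmem).1
  have : Fact (mp C).Prime := ⟨hpr⟩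
  have hC' := nonempty_of_ncp hnc
  have hhi := hC_nonempty hnc
  have hlo := lC_nonempty hC'
  obtain ⟨R', R'', w, z₀, hsub, hR', hR'', hg, hg', hD, hI⟩ :=
    stepE e (mp C) C R hR h0 (mt C) (fun c hc => mt_le hc) hhi hlo x hx
  refine ⟨R', R'', hR', hR'', ?_⟩
  change g (hC C) R'' + e * Real.log R''.card ≤
        g (hC C) R' + e * Real.log R'.card - e * Hw w at hg'
  change Dist w (dw (lC C) (ps (mp C) (mt C))) z₀ at hD
  change Inf x w (dw (lC C) (ps (mp C) (mt C))) ≤
        g C R' - x * g (hC C) R' - (1 - x) * g (lC C) R' at hI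
  have chi : (0 : ℝ) < (hC C).card := by exact_mod_cast hhi.card_pos
  have clo : (0 : ℝ) < (lC C).card := by exact_mod_cast hlo.card_pos
  have hcardC : ((hC C).card : ℝ) + (lC C).card = C.card := by
    exact_mod_cast card_hC_lC C
  have cC : (0 : ℝ) < C.card := by linarith
  have cR : (0 : ℝ) < R.card := by exact_mod_cast hR.card_pos
  have cR' : (0 : ℝ) < R'.card := by exact_mod_cast hR'.card_pos
  have cR'' : (0 : ℝ) < R''.card := by exact_mod_cast hR''.card_pos
  have hx0 : 0 < x := by rw [hx]; positivity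
  have hx' : 1 - x = ((lC C).card : ℝ) / C.card := by
    rw [hx]; field_simp; linarith
  have hx1 : 0 < 1 - x := by rw [hx']; positivity
  have hInf := Inf_nonneg hD hx0.le (by linarith)
  have hH := Hw_nonneg hD
  have hlog2 : 0 < Real.log 2 := Real.log_pos (by norm_num)
  have hlogR : e * Real.log R'.card ≤ e * Real.log R.card :=
    mul_le_mul_of_nonneg_left
      (Real.log_le_log cR' (by exact_mod_cast Finset.card_le_card hsub)) he.le
  have e2 : Psi x (1 - x) = Real.log C.card - x * Real.log (hC C).card -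
      (1 - x) * Real.log (lC C).card := by
    rw [Psi_one]
    have f0 : Real.log (1 / x) = Real.log C.card - Real.log (hC C).card := by
      rw [hx, one_div, Real.log_inv, Real.log_div chi.ne' cC.ne']; ring
    have f1 : Real.log (1 / (1 - x)) = Real.log C.card - Real.log (lC C).card := by
      rw [hx', one_div, Real.log_inv, Real.log_div clo.ne' cC.ne']; ring
    rw [f0, f1]
    ring
  have hU : U P a C - x * U P a (hC C) - (1 - x) * U P a (lC C) =
      if Bd P C then a * Real.log 2 else 0 := by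
    unfold U
    rw [nbs_eq P hnc, hx', hx]
    split_ifs
    · field_simp
      ring
    · field_simp
      ring
  have main : -(a * Psi x (1 - x)) + (Inf x w (dw (lC C) (ps (mp C) (mt C))) + e * x * Hw w) +
      (if Bd P C then a * Real.log 2 else 0) ≤
      (1 - x) * (G P a e (lC C) R' - G P a e C R) +
          x * (G P a e (hC C) R'' - G P a e C R) := by
    rw [← hU, e2]
    unfold G F
    have h4 := mul_le_mul_of_nonneg_left hg' hx0.le
    nlinarith
  have hΨ2 : Psi x (1 - x) ≤ Real.log 2 := Psi_le_log_two hx0.le (by linarith)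
  have hexH : 0 ≤ e * x * Hw w := by positivity
  constructor
  · have : 0 ≤ (if Bd P C then a * Real.log 2 else 0) := by
      split_ifs
      · positivity
      · exact le_rfl
    linarith
  · intro hxx
    by_cases hB : Bd P C
    · rw [if_pos hB] at main
      have := mul_le_mul_of_nonneg_left hΨ2 ha.le
      linarith
    · rw [if_neg hB] at main
      have hloc : a * Psi x (1 - x) ≤
          Inf x w (dw (lC C) (ps (mp C) (mt C))) + e * x * Hw w := by
        by_cases hcase : 1 - y₀ ≤ x
        · exact hnear (mp C) w _ z₀ hD x hcase (by linarith)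
        · push Not at hcase
          refine hmid (mp C) w _ z₀ hD x hxx hcase.le ?_
          apply heavy_mass P C hlo
          by_contra hcon
          push Not at hcon
          apply hB
          refine ⟨?_, ?_, hcon⟩
          · show xg * C.card ≤ (hC C).card
            rw [hx, le_div_iff₀ cC] at hxx
            exact hxx
          · show ((hC C).card : ℝ) ≤ (1 - y₀) * C.card
            rw [hx, div_lt_iff₀ cC] at hcase
            exact hcase.le
      linarith

theorem hC_eq {C : Finset ℤ} {p t : ℕ} (h0 : ∀ c ∈ C, c ≠ 0) (hp : p.Prime)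
    (ht : ∀ c ∈ C, t ≤ padicValInt p c) (hhi : (hi p t C).Nonempty) (hlo : (lo p t C).Nonempty)
    (hmp : mp C ≤ p) : (ncp C).Nonempty ∧ hC C = hi p t C ∧ lC C = lo p t C := by
  obtain ⟨c, hc⟩ := hhi
  obtain ⟨d, hd⟩ := hlo
  obtain ⟨hc1, hc2⟩ := mem_hi.1 hc
  obtain ⟨hd1, hd2⟩ := mem_lo.1 hd
  have h1 : p ∈ ncp C := (mem_ncp h0).2 ⟨hp, c, hc1, d, hd1, fun h => hc2 (h.trans hd2)⟩
  have h2 : mp C = p := le_antisymm hmp (le_mp h1)
  have h3 : mt C = t := by
    apply le_antisymm
    · rw [← hd2, ← h2]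
      exact mt_le hd1
    · obtain ⟨b, hb, hbt⟩ := mt_mem (C := C) ⟨c, hc1⟩
      rw [← hbt, h2]
      exact ht b hb
  refine ⟨⟨p, h1⟩, ?_, ?_⟩
  · unfold hC; rw [h2, h3]
  · unfold lC; rw [h2, h3]

theorem main' (k : ℕ) (hk : 1 ≤ k) (a e : ℝ) (ha : 0 < a) (ha1 : a < 1) (he : 0 < e) :
    ∃ P : Par, 0 < P.x ∧ 0 < P.y ∧ P.y ≤ 1 / 4 ∧ 0 < P.t ∧ 0 < P.b ∧
      ∀ n : ℕ, ∀ C R : Fin k → Finset ℤ, ∑ i, (C i).card = n →
      (∀ i, (C i).Nonempty) → (∀ i, (R i).Nonempty) → (∀ i, ∀ c ∈ C i, c ≠ 0) →
      Real.exp (∑ i, G P a e (C i) (R i) - k * Real.log 2) ≤ ((PS C).card : ℝ) := by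
  obtain ⟨xg, hxg, hnum⟩ := num k hk a ha ha1
  obtain ⟨P, hPx, hPy, hPy4, hPt, hPb, hcell⟩ := cell' a e xg ha ha1 he hxg
  refine ⟨P, by rw [hPx]; exact hxg, hPy, hPy4, hPt, hPb, ?_⟩
  intro n
  induction n using Nat.strong_induction_on with
  | _ n ih =>
  intro C R hn hC hR h0
  by_cases hconst : ∀ i, ¬ (ncp (C i)).Nonempty
  · -- the base case
    have h1 : ∀ i, G P a e (C i) (R i) ≤ Real.log 2 := by
      intro i
      have hU := U_nonneg P ha.le (C i)
      refine le_trans (by unfold G; linarith :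
        G P a e (C i) (R i) ≤ F a 1 e (C i) (R i)) ?_
      refine (F_le a 1 e zero_le_one he.le (C i) (R i) (hC i) (hR i)).trans ?_
      have h2 : (C i).card ≤ 2 := card_le_two fun c hc c' hc' =>
        natAbs_eq_of_padic (h0 i c hc) (h0 i c' hc') fun p hp => by
          by_contra hne
          exact hconst i ⟨p, (mem_ncp (h0 i)).2 ⟨hp, c, hc, c', hc', hne⟩⟩
      have h3 : Real.log (C i).card ≤ Real.log 2 :=
        Real.log_le_log (by exact_mod_cast (hC i).card_pos) (by exact_mod_cast h2)
      have h4 : 0 ≤ Real.log (C i).card := Real.log_natCast_nonneg _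
      nlinarith
    have h2 : ∑ i, G P a e (C i) (R i) ≤ k * Real.log 2 := by
      calc ∑ i, G P a e (C i) (R i) ≤ ∑ _i : Fin k, Real.log 2 :=
            Finset.sum_le_sum fun i _ => h1 i
        _ = k * Real.log 2 := by simp
    have h3 : Real.exp (∑ i, G P a e (C i) (R i) - k * Real.log 2) ≤ 1 :=
      Real.exp_le_one_iff.2 (by linarith)
    have h4 : (1 : ℝ) ≤ (PS C).card := by exact_mod_cast (PS_nonempty hC).card_pos
    linarith
  -- the induction step
  push Not at hconst
  obtain ⟨i₀, hi₀⟩ := hconst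
  obtain ⟨i₁, _, hmax⟩ := Finset.exists_max_image (Finset.univ : Finset (Fin k))
    (fun i => mp (C i)) ⟨i₀, Finset.mem_univ _⟩
  set p : ℕ := mp (C i₁) with hpdef
  have hi₁ : (ncp (C i₁)).Nonempty := by
    by_contra hcon
    have h1 : mp (C i₁) = 0 := by
      unfold mp
      rw [Finset.not_nonempty_iff_eq_empty.1 hcon]
      rfl
    have h2 := hmax i₀ (Finset.mem_univ _)
    have h3 := ((mem_ncp (h0 i₀)).1 (mp_mem hi₀)).1.pos
    have h4 : mp (C i₀) ≤ mp (C i₁) := h2
    omega
  have hp : p.Prime := ((mem_ncp (h0 i₁)).1 (mp_mem hi₁)).1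
  have hpf : Fact p.Prime := ⟨hp⟩
  have hmin : ∀ i, ∃ t : ℕ, (∀ c ∈ C i, t ≤ padicValInt p c) ∧ (lo p t (C i)).Nonempty := by
    intro i
    obtain ⟨c₀, hc₀, hmin⟩ := Finset.exists_min_image (C i) (fun c => padicValInt p c) (hC i)
    exact ⟨padicValInt p c₀, hmin, ⟨c₀, mem_lo.2 ⟨hc₀, rfl⟩⟩⟩
  choose t ht hlo using hmin
  set S : Finset (Fin k) := Finset.univ.filter (fun i => (hi p (t i) (C i)).Nonempty) with hS
  have hSeq : ∀ i ∈ S, (ncp (C i)).Nonempty ∧ FD.hC (C i) = hi p (t i) (C i) ∧
      lC (C i) = lo p (t i) (C i) := fun i hi' =>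
    hC_eq (h0 i) hp (ht i) (Finset.mem_filter.1 hi').2 (hlo i) (hmax i (Finset.mem_univ _))
  have hSne : S.Nonempty := by
    refine ⟨i₁, Finset.mem_filter.2 ⟨Finset.mem_univ _, ?_⟩⟩
    by_contra hcon
    rw [Finset.not_nonempty_iff_eq_empty] at hcon
    have h1 : ∀ c ∈ C i₁, padicValInt p c = t i₁ := by
      intro c hc
      by_contra h2
      have h3 : c ∈ hi p (t i₁) (C i₁) := mem_hi.2 ⟨hc, h2⟩
      rw [hcon] at h3
      exact absurd h3 (Finset.notMem_empty c)
    obtain ⟨_, c₁, hc₁, c₂, hc₂, hne⟩ := (mem_ncp (h0 i₁)).1 (mp_mem hi₁)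
    exact hne ((h1 c₁ hc₁).trans (h1 c₂ hc₂).symm)
  have hSk : S.card ≤ k := by
    have := Finset.card_le_univ S
    simpa using this
  set x : Fin k → ℝ := fun i => ((hi p (t i) (C i)).card : ℝ) / (C i).card with hx
  have hcellS : ∀ i, ∃ R' R'' : Finset ℤ, R'.Nonempty ∧ R''.Nonempty ∧ (i ∈ S →
      (-(a * Psi (x i) (1 - x i)) ≤
        (1 - x i) * (G P a e (lo p (t i) (C i)) R' - G P a e (C i) (R i)) +
          x i * (G P a e (hi p (t i) (C i)) R'' - G P a e (C i) (R i))) ∧
        (xg ≤ x i → 0 ≤ (1 - x i) * (G P a e (lo p (t i) (C i)) R' - G P a e (C i) (R i)) +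
          x i * (G P a e (hi p (t i) (C i)) R'' - G P a e (C i) (R i)))) ∧
      (i ∉ S → R' = R i) := by
    intro i
    by_cases hiS : i ∈ S
    · obtain ⟨hs1, hs2, hs3⟩ := hSeq i hiS
      obtain ⟨R', R'', hR', hR'', h1, h2⟩ := hcell (C i) (R i) (hR i) (h0 i) hs1 (x i)
        (by rw [hs2])
      rw [hs2, hs3] at h1 h2
      exact ⟨R', R'', hR', hR'', fun _ => ⟨h1, h2⟩, fun h => absurd hiS h⟩
    · exact ⟨R i, R i, hR i, hR i, fun h => absurd h hiS, fun _ => rfl⟩
  choose R' R'' hR' hR'' hstep hstay using hcellS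
  set f : Fin k → ℝ := fun i => G P a e (lo p (t i) (C i)) (R' i) - G P a e (C i) (R i) with hf
  set f' : Fin k → ℝ := fun i => G P a e (hi p (t i) (C i)) (R'' i) - G P a e (C i) (R i)
    with hf'
  have hcardi : ∀ i, ((hi p (t i) (C i)).card : ℝ) + (lo p (t i) (C i)).card = (C i).card :=
    fun i => by exact_mod_cast card_hi_lo p (t i) (C i)
  obtain ⟨i, hiS, hi1⟩ := hnum S hSne hSk x f f' (fun j hj => by
      have h1 : (0 : ℝ) < (hi p (t j) (C j)).card := by
        exact_mod_cast (Finset.mem_filter.1 hj).2.card_pos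
      have h2 : (0 : ℝ) < (C j).card := by exact_mod_cast (hC j).card_pos
      show 0 < ((hi p (t j) (C j)).card : ℝ) / (C j).card
      positivity) (fun j _ => by
      have h1 : (0 : ℝ) < (lo p (t j) (C j)).card := by exact_mod_cast (hlo j).card_pos
      have h2 : (0 : ℝ) < (C j).card := by exact_mod_cast (hC j).card_pos
      have h3 := hcardi j
      show ((hi p (t j) (C j)).card : ℝ) / (C j).card < 1
      rw [div_lt_one h2]
      linarith) (fun j hj => (hstep j hj).1) (fun j hj => (hstep j hj).2)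
  have hloC : ∀ j, j ∉ S → lo p (t j) (C j) = C j := by
    intro j hj
    have h1 : hi p (t j) (C j) = ∅ := by
      rw [← Finset.not_nonempty_iff_eq_empty]
      intro h
      exact hj (Finset.mem_filter.2 ⟨Finset.mem_univ _, h⟩)
    apply Finset.Subset.antisymm (lo_subset _ _ _)
    intro c hc
    refine mem_lo.2 ⟨hc, ?_⟩
    by_contra h2
    have h3 : c ∈ hi p (t j) (C j) := mem_hi.2 ⟨hc, h2⟩
    rw [h1] at h3
    exact absurd h3 (Finset.notMem_empty c)
  -- the two smaller tuples
  have hiC : (hi p (t i) (C i)).Nonempty := (Finset.mem_filter.1 hiS).2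
  have hsum1 : ∑ j, (lo p (t j) (C j)).card < n := by
    rw [← hn]
    apply Finset.sum_lt_sum
    · intro j _
      exact Finset.card_le_card (lo_subset _ _ _)
    · refine ⟨i, Finset.mem_univ _, ?_⟩
      have h1 := card_hi_lo p (t i) (C i)
      have h2 := hiC.card_pos
      omega
  have hsum2 : ∑ j, (Function.update C i (hi p (t i) (C i)) j).card < n := by
    rw [← hn]
    apply Finset.sum_lt_sum
    · intro j _
      by_cases hj : j = i
      · subst hj
        rw [Function.update_self]
        exact Finset.card_le_card (hi_subset _ _ _)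
      · rw [Function.update_of_ne hj]
    · refine ⟨i, Finset.mem_univ _, ?_⟩
      rw [Function.update_self]
      have h1 := card_hi_lo p (t i) (C i)
      have h2 := (hlo i).card_pos
      omega
  have hupd : ∀ j, Function.update C i (hi p (t i) (C i)) j ⊆ C j := by
    intro j
    by_cases hj : j = i
    · subst hj
      rw [Function.update_self]
      exact hi_subset _ _ _
    · rw [Function.update_of_ne hj]
  have ih1 := ih _ hsum1 (fun j => lo p (t j) (C j)) R' rfl hlo hR'
    (fun j c hc => h0 j c (lo_subset _ _ _ hc))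
  have ih2 := ih _ hsum2 (Function.update C i (hi p (t i) (C i))) (Function.update R i (R'' i))
    rfl
    (fun j => by
      by_cases hj : j = i
      · subst hj
        rw [Function.update_self]
        exact hiC
      · rw [Function.update_of_ne hj]
        exact hC j)
    (fun j => by
      by_cases hj : j = i
      · subst hj
        rw [Function.update_self]
        exact hR'' j
      · rw [Function.update_of_ne hj]
        exact hR j)
    (fun j c hc => h0 j c (hupd j hc))
  have hrule := PS_rule p C (fun j => lo p (t j) (C j)) (Function.update C i (hi p (t i) (C i)))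
    h0 (fun j => lo_subset _ _ _) hupd t ht (fun j c hc => (mem_lo.1 hc).2) i
    (fun c hc => by
      rw [Function.update_self] at hc
      exact (mem_hi.1 hc).2)
  have hrule' : ((PS fun j => lo p (t j) (C j)).card : ℝ) +
      (PS (Function.update C i (hi p (t i) (C i)))).card ≤ (PS C).card := by
    exact_mod_cast hrule
  -- the potentials
  have e1 : ∑ j, G P a e (lo p (t j) (C j)) (R' j) =
      ∑ j, G P a e (C j) (R j) + ∑ j ∈ S, f j := by
    have h1 : ∑ j ∈ S, f j = ∑ j, f j := by
      apply Finset.sum_subset (Finset.subset_univ _)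
      intro j _ hj
      show G P a e (lo p (t j) (C j)) (R' j) - G P a e (C j) (R j) = 0
      rw [hloC j hj, hstay j hj, sub_self]
    rw [h1, ← Finset.sum_add_distrib]
    refine Finset.sum_congr rfl fun j _ => ?_
    show G P a e (lo p (t j) (C j)) (R' j) = G P a e (C j) (R j) +
      (G P a e (lo p (t j) (C j)) (R' j) - G P a e (C j) (R j))
    ring
  have e2 : ∑ j, G P a e (Function.update C i (hi p (t i) (C i)) j)
      (Function.update R i (R'' i) j) = ∑ j, G P a e (C j) (R j) + f' i := by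
    rw [← Finset.add_sum_erase _ _ (Finset.mem_univ i),
      ← Finset.add_sum_erase _ (fun j => G P a e (C j) (R j)) (Finset.mem_univ i)]
    rw [Function.update_self, Function.update_self]
    have h1 : ∑ j ∈ Finset.univ.erase i, G P a e (Function.update C i (hi p (t i) (C i)) j)
        (Function.update R i (R'' i) j) =
        ∑ j ∈ Finset.univ.erase i, G P a e (C j) (R j) := by
      refine Finset.sum_congr rfl fun j hj => ?_
      have hj' : j ≠ i := (Finset.mem_erase.1 hj).1
      rw [Function.update_of_ne hj', Function.update_of_ne hj']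
    rw [h1]
    show G P a e (hi p (t i) (C i)) (R'' i) +
        ∑ j ∈ Finset.univ.erase i, G P a e (C j) (R j) =
      G P a e (C i) (R i) + ∑ j ∈ Finset.univ.erase i, G P a e (C j) (R j) +
        (G P a e (hi p (t i) (C i)) (R'' i) - G P a e (C i) (R i))
    ring
  rw [e1] at ih1
  rw [e2] at ih2
  set T : ℝ := ∑ j, G P a e (C j) (R j) - k * Real.log 2 with hT
  have e3 : ∑ j, G P a e (C j) (R j) + ∑ j ∈ S, f j - k * Real.log 2 = T + ∑ j ∈ S, f j := by
    rw [hT]; ring
  have e4 : ∑ j, G P a e (C j) (R j) + f' i - k * Real.log 2 = T + f' i := by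
    rw [hT]; ring
  rw [e3, Real.exp_add] at ih1
  rw [e4, Real.exp_add] at ih2
  have h1 : Real.exp T * 1 ≤ Real.exp T * (Real.exp (∑ j ∈ S, f j) + Real.exp (f' i)) :=
    mul_le_mul_of_nonneg_left hi1 (Real.exp_pos _).le
  linarith

end Pool.Agent.W857.FD
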